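import Pool.Agent.Helper6.CX.Lay

/-! The deterministic part: the Kazhdan inequality for the structured pair. -/

namespace Pool.Agent.Helper6.CX

open Equiv
open Pool.Agent.Helper15.Pair (IsLen len)

section
variable {n N : ℕ}

theorem via_surj (φ : Fin N ↪ Fin n) (g : Perm (Fin n)) (hg : ∀ r, g r ≠ r → r ∈ Set.range φ) :
    ∃ g' : Perm (Fin N), g'.viaEmbedding φ = g := by
  have hp : ∀ x : Fin n, g x ∈ Set.range φ ↔ x ∈ Set.range φ := by
    intro x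
    by_cases hx : g x = x
    · rw [hx]
    · refine ⟨fun _ => hg x hx, fun _ => hg (g x) ?_⟩
      intro h
      exact hx (g.injective h)
  refine ⟨(Equiv.ofInjective φ φ.injective).symm.permCongr (Perm.subtypePerm g hp), ?_⟩
  refine Equiv.ext fun r => ?_
  by_cases hr : r ∈ Set.range φ
  · obtain ⟨t, rfl⟩ := hr
    rw [Perm.viaEmbedding_apply, Equiv.permCongr_apply]
    have h1 : (Equiv.ofInjective φ φ.injective).symm.symm t = ⟨φ t, t, rfl⟩ := rfl
    rw [h1, Perm.subtypePerm_apply]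
    exact congrArg Subtype.val ((Equiv.ofInjective φ φ.injective).apply_symm_apply
      ⟨g (φ t), (hp (φ t)).2 ⟨t, rfl⟩⟩)
  · rw [Perm.viaEmbedding_apply_of_notMem _ _ _ hr]
    by_contra hne
    exact hr (hg r (Ne.symm hne))

theorem lay_surj (φ : Fin N ↪ Fin n) (j : ℕ) (g : Perm (Fin n))
    (hg : ∀ r, g r ≠ r → ∃ t, ((finRotate n) ^ j) (φ t) = r) :
    ∃ g' : Perm (Fin N), lay φ j g' = g := by
  obtain ⟨g', hg'⟩ := via_surj φ (((finRotate n) ^ j)⁻¹ * g * (finRotate n) ^ j) (by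
    intro r hr
    have h1 : g (((finRotate n) ^ j) r) ≠ ((finRotate n) ^ j) r := by
      intro h
      apply hr
      rw [Perm.mul_apply, Perm.mul_apply, h, ← Perm.mul_apply, inv_mul_cancel, Perm.one_apply]
    obtain ⟨t, ht⟩ := hg _ h1
    exact ⟨t, ((finRotate n) ^ j).injective ht⟩)
  refine ⟨g', ?_⟩
  unfold lay
  rw [hg']
  group

theorem via_via {M : ℕ} (φ : Fin N ↪ Fin n) (ψ : Fin M ↪ Fin N) (g : Perm (Fin M)) :
    (g.viaEmbedding ψ).viaEmbedding φ = g.viaEmbedding (ψ.trans φ) := by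
  refine Equiv.ext fun r => ?_
  by_cases hr : r ∈ Set.range (ψ.trans φ)
  · obtain ⟨t, rfl⟩ := hr
    rw [Perm.viaEmbedding_apply]
    have h1 : (ψ.trans φ) t = φ (ψ t) := rfl
    rw [h1, Perm.viaEmbedding_apply, Perm.viaEmbedding_apply]
    rfl
  · rw [Perm.viaEmbedding_apply_of_notMem _ _ _ hr]
    by_cases hr2 : r ∈ Set.range φ
    · obtain ⟨t, rfl⟩ := hr2
      rw [Perm.viaEmbedding_apply, Perm.viaEmbedding_apply_of_notMem]
      rintro ⟨s, rfl⟩
      exact hr ⟨s, rfl⟩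
    · rw [Perm.viaEmbedding_apply_of_notMem _ _ _ hr2]

theorem conj_via (τ : Perm (Fin n)) (φ : Fin N ↪ Fin n) (g : Perm (Fin N)) :
    τ * g.viaEmbedding φ * τ⁻¹ = g.viaEmbedding (φ.trans τ.toEmbedding) := by
  refine Equiv.ext fun r => ?_
  by_cases hr : r ∈ Set.range (φ.trans τ.toEmbedding)
  · obtain ⟨t, rfl⟩ := hr
    rw [Perm.viaEmbedding_apply]
    have h1 : (φ.trans τ.toEmbedding) t = τ (φ t) := rfl
    rw [h1, Perm.mul_apply, Perm.mul_apply, ← Perm.mul_apply τ⁻¹, inv_mul_cancel, Perm.one_apply,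
      Perm.viaEmbedding_apply]
    rfl
  · rw [Perm.viaEmbedding_apply_of_notMem _ _ _ hr, Perm.mul_apply, Perm.mul_apply,
      Perm.viaEmbedding_apply_of_notMem, ← Perm.mul_apply, mul_inv_cancel, Perm.one_apply]
    rintro ⟨t, ht⟩
    apply hr
    refine ⟨t, ?_⟩
    have h1 : (φ.trans τ.toEmbedding) t = τ (φ t) := rfl
    rw [h1, ht, ← Perm.mul_apply, mul_inv_cancel, Perm.one_apply]

theorem lay_via {M : ℕ} (φ : Fin N ↪ Fin n) (ψ : Fin M ↪ Fin N) (j : ℕ) (g : Perm (Fin M)) :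
    lay φ j (g.viaEmbedding ψ) =
      g.viaEmbedding ((ψ.trans φ).trans ((finRotate n) ^ j).toEmbedding) := by
  unfold lay
  rw [via_via, conj_via]

theorem len_lay {L : Perm (Fin n) → ℝ} (hL : IsLen L) (φ : Fin N ↪ Fin n) (j : ℕ) :
    IsLen (fun g => L (lay φ j g)) where
  nonneg g := hL.nonneg _
  one := by rw [lay_one]; exact hL.one
  mul g h := by rw [lay_mul]; exact hL.mul _ _
  inv g := by rw [lay_inv]; exact hL.inv _

theorem blk_lay {M : ℕ} {C₀ : ℝ} {a b : Perm (Fin M)} {L : Perm (Fin n) → ℝ}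
    (h : BlkKaz C₀ a b L) (φ : Fin N ↪ Fin n) (j : ℕ) :
    BlkKaz C₀ a b (fun g => L (lay φ j g)) := by
  intro ψ g hg
  have h1 := h ((ψ.trans φ).trans ((finRotate n) ^ j).toEmbedding) g hg
  simp only [lay_via]
  exact h1

end

/-- the deterministic theorem -/
theorem det (hALG : S_ALG) (hIDX : S_IDX) (hCHAIN : S_CHAIN) (hSTD : S_STD) (hHALF : S_HALF)
    (hDEEP : S_DEEP) (hDEEPC : S_DEEPC) (hWIN : S_WIN) (hGAD : S_GAD) (hESC : S_ESC)
    (hUNI : S_UNI) (m E : ℕ) (C₀ : ℝ) (hm : 10 ≤ m) (hE : Odd E) (hE2 : 4 ^ 18 ≤ E)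
    (hC₀ : 0 ≤ C₀) : ∃ C : ℝ, 0 ≤ C ∧ ∀ (n a' N₀ G b₁ : ℕ) (c : ℕ → ℕ)
    (φ : Fin (2 * a' * E) ↪ Fin n) (p q : Fin b₁ → Fin n) (ι₂ : Perm (Fin n))
    (B : Finset (Fin n)) (α β : Perm (Fin (4 * a' + 2))), 1 ≤ a' → N₀ = a' * E →
    Perm.sign α = 1 → Perm.sign β = 1 → Std m N₀ c φ → Sel m N₀ E c B → Spread G p q →
    2 * winLen m E (2 * m * m) ≤ G → (∀ k, p k ∈ B ∧ q k ∈ B) → (∀ r, r ∉ B → ι₂ r = r) →
    Sparse 4 G B → ι₂ * ι₂ = 1 → (∀ k, ι₂ (p k) = p k ∧ ι₂ (q k) = q k) →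
    10 * ((B.card + E + 2) * (2 * m * m + 2 * (2 * m + 1))) ≤ n → 40 ≤ n →
    winLen m E (2 * m * m) ≤ n →
    ∃ z κ : Perm (Fin (2 * a' * E)), z * z = 1 ∧ κ ^ E = 1 ∧
      ∀ (τ₁ τ₂ : Perm (Fin (2 * a' * E))) (f : ℕ → Perm (Fin (2 * a' * E))), τ₁ * τ₁ = 1 →
        τ₂ * τ₂ = 1 → (∀ j, f j ^ E = 1) → ∀ L : Perm (Fin n) → ℝ, IsLen L → BlkKaz C₀ α β L →
        ∀ g, Perm.sign g = 1 → L g ≤ C * (L (finRotate n * gad p q) +
          L (gad p q * ι₂ * layers φ m (rho z κ τ₁ τ₂ f))) := by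
  obtain ⟨C₁, hC₁, hidx⟩ := hIDX E C₀ hE2 hC₀
  set R := winLen m E (2 * m * m) with hR
  obtain ⟨C₂, hC₂, huni⟩ := hUNI (R + 1)
  set K₁ : ℝ := 16 * (4 ^ 16 + 1 + E) * (E + 1) with hK₁
  have hK₁0 : 0 ≤ K₁ := by positivity
  set K₂ : ℝ := 8 ^ (2 * m) * (C₁ * K₁ + 2 * (2 * m : ℕ) * m) with hK₂
  have hK₂0 : 0 ≤ K₂ := by positivity
  refine ⟨C₂ * (K₂ + 1), mul_nonneg hC₂ (by linarith), ?_⟩
  intro n a' N₀ G b₁ c φ p q ι₂ B α β ha' hN₀ hα hβ hStd hSel hSpr hG hB hι₂B hSp hι₂ hι₂pq hn1 hn2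
    hn3
  obtain ⟨z, κ, hz, hκ, hfin⟩ := hidx a' ha' α β hα hβ
  refine ⟨z, κ, hz, hκ, ?_⟩
  intro τ₁ τ₂ f hτ₁ hτ₂ hf L hL hBlk g hg
  set X := finRotate n * gad p q with hX
  set u := gad p q * ι₂ * layers φ m (rho z κ τ₁ τ₂ f) with hu
  have hR1 : 1 ≤ R := by
    rw [hR]
    exact Nat.one_le_iff_ne_zero.2 (by unfold winLen; positivity)
  have hG1 : 1 ≤ G := by omega
  obtain ⟨hg1, hg2, hg3, hg4, hg5⟩ := hGAD n b₁ G p q hG1 hSpr
  -- chosen intervals have no points of `B`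
  have hchB : ∀ r : Fin n, (∃ i < N₀, c i = r.val / (2 * m + 1)) → r ∉ B := by
    rintro r ⟨i, hi, hci⟩ hrB
    exact hSel.2.2.1 i hi r hrB hci.symm
  have hgfix : ∀ r : Fin n, (∃ i < N₀, c i = r.val / (2 * m + 1)) → gad p q r = r := by
    intro r hr
    refine hg4 r fun i => ?_
    have h1 := hchB r hr
    constructor
    · rintro rfl
      exact h1 (hB i).1
    · rintro rfl
      exact h1 (hB i).2
  obtain ⟨hSep, hOff⟩ := hSTD.1 n (2 * a' * E) m N₀ c φ (by omega) hStd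
  have hOff1 := hOff (gad p q) hgfix
  have hOff2 := hOff ι₂ (fun r hr => hι₂B r (hchB r hr))
  -- the involutions commute
  have hcomm : gad p q * ι₂ = ι₂ * gad p q := by
    have hd : Perm.Disjoint (gad p q) ι₂ := by
      intro r
      by_cases h1 : ∃ i, r = p i ∨ r = q i
      · right
        obtain ⟨i, h2 | h2⟩ := h1
        · rw [h2]; exact (hι₂pq i).1
        · rw [h2]; exact (hι₂pq i).2
      · left
        push Not at h1
        exact hg4 r h1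
    exact hd.commute
  have hLX := hL.nonneg X
  have hLu := hL.nonneg u
  set Λ := K₁ * (L X + L u) with hΛ
  have hΛ0 : 0 ≤ Λ := by positivity
  -- the alternating group of layer 2
  have hE0 : (0 : ℝ) ≤ E := Nat.cast_nonneg E
  have hlay : ∀ g' : Perm (Fin (2 * a' * E)), Perm.sign g' = 1 → L (lay φ 2 g') ≤ C₁ * Λ := by
    refine hfin (fun g' => L (lay φ 2 g')) (len_lay hL φ 2) (blk_lay hBlk φ 2) Λ hΛ0 ?_ ?_
    · intro k hk
      have h1 := (hALG n (2 * a' * E) m E φ (gad p q) ι₂ z κ τ₁ τ₂ f (by omega) hE hSep hOff1 hOff2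
        hg1 hι₂ hcomm hz hκ hτ₁ hτ₂ hf L hL k).1
      refine h1.trans ?_
      have hk' : |(k : ℝ)| ≤ 4 ^ 16 := by exact_mod_cast hk
      rw [hΛ, hK₁]
      refine mul_le_mul_of_nonneg_right ?_ (by positivity)
      refine mul_le_mul_of_nonneg_right ?_ (by positivity)
      linarith
    · intro k hk g'
      have h1 := (hALG n (2 * a' * E) m E φ (gad p q) ι₂ z κ τ₁ τ₂ f (by omega) hE hSep hOff1 hOff2
        hg1 hι₂ hcomm hz hκ hτ₁ hτ₂ hf L hL k).2 g'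
      refine h1.trans ?_
      have hk' : |(k : ℝ)| ≤ E + 4 ^ 16 := by exact_mod_cast hk
      have h2 : 2 * |(k : ℝ)| * (E + 1) * L u ≤ Λ := by
        rw [hΛ, hK₁]
        have h3 : 2 * |(k : ℝ)| * (E + 1) * L u ≤
            16 * (4 ^ 16 + 1 + E) * (E + 1) * L u := by
          refine mul_le_mul_of_nonneg_right ?_ hLu
          refine mul_le_mul_of_nonneg_right ?_ (by positivity)
          linarith
        have h4 : 0 ≤ 16 * (4 ^ 16 + 1 + (E : ℝ)) * (E + 1) * L X := by positivity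
        nlinarith [h3, h4]
      linarith
  have hAB2 : AB L (C₁ * Λ) (lay2 φ) := by
    intro g' hg' hsup
    obtain ⟨g'', hg''⟩ := lay_surj φ 2 g' (by
      intro r hr
      have h1 := hsup (Perm.mem_support.2 hr)
      unfold lay2 at h1
      obtain ⟨t, _, ht⟩ := Finset.mem_image.1 h1
      exact ⟨t, ht⟩)
    rw [← hg'']
    refine hlay g'' ?_
    rw [← lay_sign φ 2, hg'', hg']
  -- the translates
  obtain ⟨hcard, hhalf⟩ := hHALF n (2 * a' * E) m N₀ c φ (gad p q) (by omega) hStd hgfix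
  rw [← hX] at hhalf
  have hN4 : 4 ≤ N₀ := by
    have h1 : 4 ≤ E := le_trans (by norm_num) hE2
    calc 4 ≤ E := h1
      _ ≤ a' * E := Nat.le_mul_of_pos_left _ ha'
      _ = N₀ := hN₀.symm
  have hchain := hCHAIN n (2 * m) L (C₁ * Λ) (X ^ m) (lay2 φ) hL hAB2 (by omega) (by omega)
  set S := (Finset.range (2 * m + 1)).biUnion fun l => (lay2 φ).image ((X ^ m) ^ l) with hS
  have hdeep : ∀ r : Fin n, Deep m N₀ c (2 * m * m) r.val → r ∈ S := fun r hr =>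
    hDEEP n (2 * a' * E) m N₀ c φ (gad p q) r (by omega) hStd hgfix hr
  have hScard := hDEEPC n m N₀ E (2 * m * m) c B (by omega) (by omega) hSel hn1 S hdeep
  -- escaping
  have hesc := hESC n b₁ G R p q (fun r => Deep m N₀ c (2 * m * m) r.val) hSpr hR1 hG
    (hWIN n m N₀ E G (2 * m * m) c B (by omega) (by omega) hSel hSp (by omega) hn3)
  have hun := huni n b₁ L X u _ S (fun r => Deep m N₀ c (2 * m * m) r.val) p q hL hchain hn2 hScard
    hdeep (by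
      intro k
      rw [hu, Perm.mul_apply, Perm.mul_apply]
      have h1 : layers φ m (rho z κ τ₁ τ₂ f) (q k) = q k := by
        refine layers_apply_of_notMem φ m _ _ fun j hj t ht => ?_
        have h2 := hOff (swap (q k) (p k)) (by
          intro r hr
          have h3 := hchB r hr
          refine swap_apply_of_ne_of_ne ?_ ?_
          · rintro rfl
            exact h3 (hB k).2
          · rintro rfl
            exact h3 (hB k).1) j hj t
        rw [ht, swap_apply_left] at h2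
        have h3 := (hSpr.1 k).2.1
        rw [h2] at h3
        exact lt_irrefl _ h3
      rw [h1, (hι₂pq k).2, hg3]) hesc g hg
  refine hun.trans ?_
  have hXm : L (X ^ m) ≤ m * L X := hL.pow X m
  have h1 : 8 ^ (2 * m) * (C₁ * Λ + 2 * ((2 * m : ℕ) : ℝ) * L (X ^ m)) ≤ K₂ * (L X + L u) := by
    rw [hK₂, hΛ]
    have h2 : C₁ * (K₁ * (L X + L u)) + 2 * ((2 * m : ℕ) : ℝ) * L (X ^ m) ≤
        (C₁ * K₁ + 2 * ((2 * m : ℕ) : ℝ) * m) * (L X + L u) := by
      have h3 : 2 * ((2 * m : ℕ) : ℝ) * L (X ^ m) ≤ 2 * ((2 * m : ℕ) : ℝ) * (m * L X) := by gcongr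
      have h4 : 0 ≤ 2 * ((2 * m : ℕ) : ℝ) * m * L u := by positivity
      nlinarith [h3, h4]
    calc _ ≤ 8 ^ (2 * m) * ((C₁ * K₁ + 2 * ((2 * m : ℕ) : ℝ) * m) * (L X + L u)) := by gcongr
      _ = _ := by ring
  calc C₂ * (8 ^ (2 * m) * (C₁ * Λ + 2 * ((2 * m : ℕ) : ℝ) * L (X ^ m)) + L X + L u)
      ≤ C₂ * (K₂ * (L X + L u) + L X + L u) := by gcongr
    _ = C₂ * (K₂ + 1) * (L X + L u) := by ring

end Pool.Agent.Helper6.CX
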