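import Pool.Agent.Helper6.CX.Lay

/-!
# Project CX (`MP_75608d_al`), packet CX-PULL (helper6)
-/

set_option autoImplicit false

namespace Pool.Agent.Helper6.CX.Pull

open Equiv
open Pool.Agent.Helper15.Pair (len len_of_mem len_coe)
open Pool.Agent.Helper6.CX

theorem sign_viaEmbedding {n M : ℕ} (φ : Fin M ↪ Fin n) (g : Perm (Fin M)) :
    Perm.sign (g.viaEmbedding φ) = Perm.sign g := by
  exact Pool.Agent.Helper6.CX.via_sign φ g

/-- the homomorphism of alternating groups induced by an embedding -/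
noncomputable def altHom {n M : ℕ} (φ : Fin M ↪ Fin n) :
    alternatingGroup (Fin M) →* alternatingGroup (Fin n) where
  toFun g := ⟨(g : Perm (Fin M)).viaEmbedding φ, by
    rw [Perm.mem_alternatingGroup, sign_viaEmbedding]
    exact Perm.mem_alternatingGroup.1 g.2⟩
  map_one' := Subtype.ext (map_one (Perm.viaEmbeddingHom φ))
  map_mul' g h := Subtype.ext (map_mul (Perm.viaEmbeddingHom φ) (g : Perm (Fin M)) h)

theorem thm : Pool.Agent.Helper6.CX.S_PULL := by
  intro n M C₀ a b hC₀ hK V _ _ _ ρ hρ v φ g hg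
  have key : ∀ h : alternatingGroup (Fin M), len ρ v ((h : Perm (Fin M)).viaEmbedding φ) =
      ‖(ρ.comp (altHom φ)) h v - v‖ := by
    intro h
    exact len_coe ρ v (altHom φ h)
  have h1 := hK V (ρ.comp (altHom φ)) (fun g v => hρ _ _) v ⟨g, Perm.mem_alternatingGroup.2 hg⟩
  rw [← key, ← key, ← key] at h1
  exact h1

end Pool.Agent.Helper6.CX.Pull
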