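import Pool.Agent.Helper6.CX.Main
import Pool.Agent.Helper6.CX.Evc
import Pool.Agent.Helper70.CX.CYC
import Pool.Agent.Helper51.CX.INV2
import Pool.Agent.Helper6.CX.Pull
import Pool.Agent.Helper23.CX.WIN
import Pool.Agent.Helper7.CX.GAD
import Pool.Agent.Helper70.CX.DEEP
import Pool.Agent.Helper29.CX.ROTG
import Pool.Agent.Helper51.CX.HALF
import Pool.Agent.Helper81.CX.UNI
import Pool.Agent.Helper81.CX.ESC
import Pool.Agent.Helper64.CX.CNT
import Pool.Agent.Helper68.CX.CONJ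
import Pool.Agent.Helper58.CX.NUM
import Pool.Agent.Helper16.CX.STD
import Pool.Agent.Helper31.CX.CJ
import Pool.Agent.Helper31.CX.ALG
import Pool.Agent.Helper87.CX.DEEPC
import Pool.Agent.Helper23.CX.SPL
import Pool.Agent.Helper83.CX.ROT
import Pool.Agent.Helper77.CX.IDX
import Pool.Agent.Helper61.CX.INV8
import Pool.Agent.Helper61.CX.COVK
import Pool.Agent.Helper61.CX.CHAIN
import Pool.Agent.Helper83.CX.SEL

/-! Assembly of project CX. -/

namespace Pool.Agent.Helper6.CX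

open Equiv Filter Topology

theorem many (δ : ℝ) (hδ : 0 < δ) (hδ1 : δ < 1) :
    ∃ C : ℝ, 0 < C ∧ ∃ K : ℕ, ∀ᶠ n : ℕ in atTop, ∀ x y : alternatingGroup (Fin n),
      K * (cyc (x : Perm (Fin n)) * cyc (x : Perm (Fin n))) ≤ n →
      K * (cyc (y : Perm (Fin n)) * cyc (y : Perm (Fin n))) ≤ n →
      (n.factorial : ℝ) ^ (1 - δ) ≤
        (Nat.card {g : Perm (Fin n) // KazC C x (MulAut.conjNormal g y)} : ℝ) :=
  main Pool.Agent.Helper31.CX.ALG.thm
    (Pool.Agent.Helper77.CX.thm (Pool.Agent.Helper61.CX.INV8.thm Pool.Agent.Helper51.CX.INV2.thm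
      Pool.Agent.Helper6.CX.Evc.thm) Pool.Agent.Helper61.CX.COVK.thm)
    Pool.Agent.Helper61.CX.CHAIN.thm Pool.Agent.Helper16.CX.std Pool.Agent.Helper51.CX.HALF.thm
    Pool.Agent.Helper70.CX.thm_DEEP Pool.Agent.Helper87.CX.thm Pool.Agent.Helper23.CX.thm
    Pool.Agent.Helper7.CX.thm (Pool.Agent.Helper81.CX.ESC.thm Pool.Agent.Helper7.CX.thm)
    Pool.Agent.Helper81.CX.UNI.thm
    (Pool.Agent.Helper23.CX.SPL.thm Pool.Agent.Helper68.CX.CONJ.thm
      (Pool.Agent.Helper29.CX.thm Pool.Agent.Helper7.CX.thm) Pool.Agent.Helper7.CX.thm)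
    Pool.Agent.Helper83.CX.ROT.thm Pool.Agent.Helper83.CX.SEL.thm Pool.Agent.Helper6.CX.Pull.thm
    Pool.Agent.Helper31.CX.CJ.thm Pool.Agent.Helper51.CX.INV2.thm
    (Pool.Agent.Helper58.CX.thm Pool.Agent.Helper64.CX.thm)
    δ hδ hδ1

end Pool.Agent.Helper6.CX
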