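import Pool.Agent.Helper15.Pair.Len

/-! # Project CX (MP_75608d_al): expanding pairs are abundant, in almost every pair of conjugacy classes

**Theorem.**  For every `δ > 0` there is `ε > 0` such that with probability tending to one over two
independent uniformly random elements `x, y` of `A_n` the number of the `g ∈ S_n` for which
`{x, g y g⁻¹}` is an `ε`-expanding generating set of `A_n` is at least `(n!)^(1-δ)`.  In particular
two random elements of `A_n` are `ε`-expanding with probability at least `|A_n|^(-δ)`.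
(Known, landed by helper15: there is ONE expanding pair for every `n`.)

**Proof.**  `σ = finRotate n`.  (1) If `x` has few cycles (less than `c √n`), then `x` is conjugate to
`X = σ ι₁`, `ι₁` a product of few disjoint transpositions `(p_i q_i)` (gadgets, far from each other: `Spread`),
and `y` is conjugate to `σ ι₂`, `ι₂` the same with a rotation, `ι₁`, `ι₂` disjoint.
(2) Cut `{0, …, n-1}` into intervals of length `2m+1` and keep those (`Sel`) without points of `ι₁, ι₂`; in the `i`-th kept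
interval we have the two paths `start_i + ε m + j`, `j < m`, `ε = 0, 1`.  For fixed `j` these `N = 2 N₀` points are layer `j`: they are
`σ^j φ(t)`, `t : Fin N`; `lay φ j g` is the copy of `g ∈ Sym(N)` in layer `j`.  `X` maps layer `j` to layer `j+1`.
(3) `u = ι₁ ι₂ · lay 1 z · lay 2 κ · lay 3 κ⁻¹ · lay 4 z · lay 6 τ₁ · lay 7 τ₂ · ∏_(j ≥ 9) lay j f_j` with `z, τ₁, τ₂` involutions and
`κ^E = f_j^E = 1`, `E` odd.  If the product of all contents is one, then `Y = X u = σ ι₂ · layers` is conjugate to `σ ι₂`, so to `y` (CJ).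
The `f_j` are free: at least `(n!)^(1-δ)` possibilities (CNT, NUM); `τ₂ τ₁` is chosen to make the product one (INV2).
(4) Let `L` be a length function (the displacement of a vector in a unitary representation).  `u^E` is the involutive part, `u^(E+1)` the part of odd order, and
the commutator of `X u^E X⁻¹` with its conjugate by `u^((E+1)k)` is `lay 2 [z, κ^k z κ^(-k)]` (ALG).  As `z` carries involutions at Sidon positions of the
shift `κ`, and every even permutation is a product of four commutators of involutions (INV8), and `A_M` has a Kazhdan pair (helper15), this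
bounds `L` on the alternating group of layer 2 (IDX, COVK).
(5) The translates of layer 2 by the powers of `X` overlap by half and cover almost everything (CHAIN, DEEP, HALF, DEEPC), and everything else is reached by short words (WIN, ESC, UNI). -/

set_option linter.unusedVariables false

namespace Pool.Agent.Helper6.CX

open Equiv Filter Topology
open Pool.Agent.Helper15.Pair (IsLen len)

/-- number of cycles, fixed points included -/
noncomputable def cyc {n : ℕ} (x : Perm (Fin n)) : ℕ :=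
  Nat.card (Quotient (Perm.SameCycle.setoid x))

/-- Kazhdan inequality for a pair of elements of `A_n` -/
def KazC {n : ℕ} (C : ℝ) (x y : alternatingGroup (Fin n)) : Prop :=
  ∀ (V : Type) [NormedAddCommGroup V] [InnerProductSpace ℂ V]
    [FiniteDimensional ℂ V] (ρ : Representation ℂ (alternatingGroup (Fin n)) V),
    (∀ g v, ‖ρ g v‖ = ‖v‖) → ∀ (v : V) (g : alternatingGroup (Fin n)),
      ‖ρ g v - v‖ ≤ C * (‖ρ x v - v‖ + ‖ρ y v - v‖)

/-- the copy of `g` in layer `j`: it acts on the points `σ^j (φ t)` -/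
noncomputable def lay {n N : ℕ} (φ : Fin N ↪ Fin n) (j : ℕ) (g : Perm (Fin N)) : Perm (Fin n) :=
  (finRotate n) ^ j * g.viaEmbedding φ * ((finRotate n) ^ j)⁻¹

/-- product of the layers `0, …, m-1` -/
noncomputable def layers {n N : ℕ} (φ : Fin N ↪ Fin n) (m : ℕ) (ρ : ℕ → Perm (Fin N)) :
    Perm (Fin n) :=
  ((List.range m).map fun j => lay φ j (ρ j)).prod

/-- the layers `0, …, m-1` are disjoint -/
def Sep {n N : ℕ} (φ : Fin N ↪ Fin n) (m : ℕ) : Prop :=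
  ∀ j < m, ∀ j' < m, ∀ t t' : Fin N,
    ((finRotate n) ^ j) (φ t) = ((finRotate n) ^ j') (φ t') → j = j' ∧ t = t'

/-- `ι` fixes the points of the layers `0, …, m-1` -/
def Off {n N : ℕ} (φ : Fin N ↪ Fin n) (m : ℕ) (ι : Perm (Fin n)) : Prop :=
  ∀ j < m, ∀ t : Fin N, ι (((finRotate n) ^ j) (φ t)) = ((finRotate n) ^ j) (φ t)

/-- the contents of the layers -/
def rho {N : ℕ} (z κ τ₁ τ₂ : Perm (Fin N)) (f : ℕ → Perm (Fin N)) : ℕ → Perm (Fin N)
  | 0 => 1
  | 1 => z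
  | 2 => κ
  | 3 => κ⁻¹
  | 4 => z
  | 5 => 1
  | 6 => τ₁
  | 7 => τ₂
  | 8 => 1
  | (j + 9) => f j

/-- **CJ** (the pair stays in the conjugacy classes).  The basic facts on `lay` are proved in Pool/Agent/Helper6/CX/Lay.lean.
Proof. `σ = finRotate n`, `s_j = ρ_(j-1) ⋯ ρ_0` for `j ≤ m` (`s_0 = 1`, `s_m = 1`), `g = layers φ m s`.  Check `g σ ι g⁻¹ = σ ι (layers φ m ρ)` at every point `p`
(`layers φ m s` maps `σ^j φ t` to `σ^j φ (s_j t)` for `j < m` and fixes the other points, by `Sep`).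
(a) `p = σ^j φ t`, `j + 1 < m`: the right side is `σ^(j+1) φ (ρ_j t)` (`ι` fixes the layers), the left side `g (σ^(j+1) φ (s_j⁻¹ t)) = σ^(j+1) φ (s_(j+1) s_j⁻¹ t)`, the same.
(b) `j = m - 1`: right side `σ^m φ (ρ_(m-1) t)`; left side `g (σ^m φ (s_(m-1)⁻¹ t))`, and `s_(m-1)⁻¹ = ρ_(m-1)` as `s_m = 1`.  The point `σ^m φ t'` is in no layer `1 ≤ j < m` (else `σ^(m-1) φ t' = σ^(j-1) φ t''`, `m - 1 = j - 1` by
`Sep`), and `g` fixes layer `0` (`s_0 = 1`): so `g` fixes it.  (c) `p` in no layer: right side `σ ι p`; left side `g (σ ι p)`; if `σ ι p = σ^j φ t` with `1 ≤ j < m`, then `ι p = σ^(j-1) φ t` is fixed by `ι`, so `p = σ^(j-1) φ t` (as `ι` is injective), a contradiction;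
so `σ ι p` is in layer `0` or in no layer and `g` fixes it. -/
def S_CJ : Prop := ∀ (n N m : ℕ) (φ : Fin N ↪ Fin n) (ι : Perm (Fin n)) (ρ : ℕ → Perm (Fin N)),
  1 ≤ m → Sep φ m → Off φ m ι → ((List.range m).reverse.map ρ).prod = 1 →
  ∃ g : Perm (Fin n), g * (finRotate n * ι) * g⁻¹ = finRotate n * ι * layers φ m ρ

/-- **ALG** (extraction).
Proof. `X = σ ι₁`, `Z = ι₁ ι₂ · lay 1 z · lay 4 z · lay 6 τ₁ · lay 7 τ₂`, `W = lay 2 κ · lay 3 κ⁻¹ · ∏_(9 ≤ j < m) lay j (f (j-9))`.  All factors of `u = ι₁ ι₂ layers φ m (rho …)` commute pairwise (disjoint supports; `ι₁ ι₂ = ι₂ ι₁`), so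
`u = Z W = W Z`, `Z² = 1`, `W^E = 1`, `u^E = Z` (`E` odd), `u^(E+1) = W` (`E + 1` even).  So `L Z ≤ E L u`, `L W ≤ (E+1) L u`.
`Z' = X Z X⁻¹ = (X ι₁ ι₂ X⁻¹) · lay 2 z · lay 5 z · lay 7 τ₁ · lay 8 τ₂` (`X (lay j g) X⁻¹ = lay (j+1) g`; for `j + 1 = 8` one needs only `7 < m`, i.e. `ι₁` fixes layer `7`).  `X ι₁ ι₂ X⁻¹` fixes every point of the layers `1 ≤ j < m`:
if `X q = σ^j φ t` then `ι₁ q = σ^(j-1) φ t` is fixed by `ι₁`, so `q = σ^(j-1) φ t` is fixed by `ι₁` and `ι₂`.  Layer `8` is a layer because `9 ≤ m`.  So with `A = lay 2 z`, `A' = lay 2 (κ^k z κ^(-k))`, `r = (X ι₁ ι₂ X⁻¹) · lay 5 z · lay 7 τ₁ · lay 8 τ₂`: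
`Z' = A r`, `W^k Z' W^(-k) = A' r` (the factors of `W` other than `lay 2 κ` commute with `Z'`; `lay 2 κ` commutes with `r`), `r` commutes with `A` and `A'`, hence `[Z', W^k Z' W^(-k)] = [A, A'] = lay 2 [z, κ^k z κ^(-k)]`
(`Pool.Agent.Helper62.PairD.comm_of_factors` with `r' = r`).  `L Z' ≤ E L u + 2 L X`, `L (W^k Z' W^(-k)) ≤ L Z' + 2 |k| (E+1) L u`, the commutator is at most twice the sum: `≤ 4 E L u + 8 L X + 4 |k| (E+1) L u`.
The second claim: `lay 2 (κ^k g κ^(-k)) = W^k (lay 2 g) W^(-k)`. -/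
def S_ALG : Prop := ∀ (n N m E : ℕ) (φ : Fin N ↪ Fin n) (ι₁ ι₂ : Perm (Fin n))
  (z κ τ₁ τ₂ : Perm (Fin N)) (f : ℕ → Perm (Fin N)), 9 ≤ m → Odd E → Sep φ m → Off φ m ι₁ →
  Off φ m ι₂ → ι₁ * ι₁ = 1 → ι₂ * ι₂ = 1 → ι₁ * ι₂ = ι₂ * ι₁ → z * z = 1 → κ ^ E = 1 →
  τ₁ * τ₁ = 1 → τ₂ * τ₂ = 1 → (∀ j, f j ^ E = 1) → ∀ L : Perm (Fin n) → ℝ, IsLen L → ∀ k : ℤ,
  L (lay φ 2 (z * (κ ^ k * z * (κ ^ k)⁻¹) * z⁻¹ * (κ ^ k * z * (κ ^ k)⁻¹)⁻¹)) ≤
    8 * (|(k : ℝ)| + 1) * (E + 1) *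
      (L (finRotate n * ι₁) + L (ι₁ * ι₂ * layers φ m (rho z κ τ₁ τ₂ f))) ∧
  ∀ g : Perm (Fin N), L (lay φ 2 (κ ^ k * g * (κ ^ k)⁻¹)) ≤ L (lay φ 2 g) +
    2 * |(k : ℝ)| * (E + 1) * L (ι₁ * ι₂ * layers φ m (rho z κ τ₁ τ₂ f))

/-- **INV2** (every permutation is a product of two involutions).
Proof. For every class of `Perm.SameCycle.setoid g` choose a base point `b` (`Quotient.out`).  For `y` choose `i : ℤ` with `y = g^i b`, put `τ y = g^(-i) b` (independent of `i`: `g^i b = g^j b` implies `g^(-i) b = g^(-j) b`).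
`τ (τ y) = y`; `τ (g (g^i b)) = g^(-i-1) b` and `τ (g (g^(-i-1) b)) = τ (g^(-i) b) = g^i b`, so `(τ g)² = 1`.  `a = τ`, `b = τ g`. -/
def S_INV2 : Prop := ∀ (N : ℕ) (g : Perm (Fin N)), ∃ a b : Perm (Fin N),
  a * a = 1 ∧ b * b = 1 ∧ g = a * b

/-- **EVC** (an even involution is a commutator of two involutions).
Proof. `cycleType g = replicate k 2` (`Equiv.Perm.cycleType_of_pow_prime_eq_one`), `sign g = (-1)^k`, so `k = 2 h` and `4 h = |support g| ≤ N`.  On `Fin h × Fin 4` take `T = 1 × (0 1)`, `T' = 1 × (0 2)(1 3)`: `T² = T'² = 1`, `T T'` acts on the second coordinate as a `4`-cycle and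
`T T' T⁻¹ T'⁻¹ = (T T')² = 1 × (0 1)(2 3)` (`decide` on `Perm (Fin 4)`), an involution without fixed points.  Transport to `Fin N` by an embedding `Fin h × Fin 4 ↪ Fin N` (`viaEmbeddingHom`): `c = [T, T']` is an involution with `4 h` moved points, so it has the same cycle type as `g`
and `g = w c w⁻¹` (`Equiv.Perm.isConj_iff_cycleType_eq`, `isConj_iff`); `a = w T w⁻¹`, `b = w T' w⁻¹`. -/
def S_EVC : Prop := ∀ (N : ℕ) (g : Perm (Fin N)), g * g = 1 → Perm.sign g = 1 →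
  ∃ a b : Perm (Fin N), a * a = 1 ∧ b * b = 1 ∧ g = a * b * a⁻¹ * b⁻¹

/-- **INV8** (every even permutation is a product of four commutators of involutions).  May assume S_INV2, S_EVC.
Proof. `g = τ₁ τ₂` (INV2), `sign τ₁ = sign τ₂`.  Both even: EVC for both, `S 4 = … = S 7 = 1`.  Both odd: choose `u` with `τ₁ u ≠ u`, `r₁ = (u, τ₁ u)`: it commutes with `τ₁` (`swap_apply_apply`/`mul_swap_eq_swap_mul`: `τ₁ r₁ τ₁⁻¹ = (τ₁ u, u) = r₁`), so `τ₁ r₁` is an
involution, even; in the same way `r₂` for `τ₂`.  As `6 ≤ N` there is a transposition `w` disjoint from `r₁` and `r₂`.  `g = (τ₁ r₁) (r₁ w) (w r₂) (r₂ τ₂)`, four even involutions; EVC for each. -/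
def S_INV8 : Prop := ∀ (N : ℕ), 6 ≤ N → ∀ g : Perm (Fin N), Perm.sign g = 1 →
  ∃ S : Fin 8 → Perm (Fin N), (∀ i, S i * S i = 1) ∧
    g = (S 0 * S 1 * (S 0)⁻¹ * (S 1)⁻¹) * (S 2 * S 3 * (S 2)⁻¹ * (S 3)⁻¹) *
      (S 4 * S 5 * (S 4)⁻¹ * (S 5)⁻¹) * (S 6 * S 7 * (S 6)⁻¹ * (S 7)⁻¹)

/-- `L` on the embedded copies of `A_M` is controlled by the copies of `a`, `b` -/
def BlkKaz {n M : ℕ} (C₀ : ℝ) (a b : Perm (Fin M)) (L : Perm (Fin n) → ℝ) : Prop :=
  ∀ φ : Fin M ↪ Fin n, ∀ g : Perm (Fin M), Perm.sign g = 1 →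
    L (g.viaEmbedding φ) ≤ C₀ * (L (a.viaEmbedding φ) + L (b.viaEmbedding φ))

/-- **PULL** (a Kazhdan pair of `A_M` controls the displacement on all embedded copies).
Proof. `g ↦ ⟨g.viaEmbedding φ, _⟩` is a homomorphism from `alternatingGroup (Fin M)` to `alternatingGroup (Fin n)` (`viaEmbeddingHom`; `Perm.sign_extendDomain`/`viaEmbedding` is an `extendDomain`), pull `ρ` back (`ρ.comp`, isometric) and apply `KazC`; `len_of_mem`. -/
def S_PULL : Prop := ∀ (n M : ℕ) (C₀ : ℝ) (a b : alternatingGroup (Fin M)), 0 ≤ C₀ →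
  KazC C₀ a b → ∀ (V : Type) [NormedAddCommGroup V] [InnerProductSpace ℂ V]
    [FiniteDimensional ℂ V] (ρ : Representation ℂ (alternatingGroup (Fin n)) V),
    (∀ g v, ‖ρ g v‖ = ‖v‖) → ∀ v : V,
      BlkKaz C₀ (a : Perm (Fin M)) (b : Perm (Fin M)) (len ρ v)

/-- **COVK** (covering by shifted blocks).
Proof. The proof of `Pool.Agent.Helper15.Pair.cover` (Pool/Agent/Helper15/Pair/TwoGen.lean) with `e = d`: there `hshift` is derived from `L y`; here it is the hypothesis (an even `g` whose support is in the `j`-th shifted block is `y^j g' y^(-j)` with `g' = y^(-j) g y^j`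
supported in the first block).  The rest is word for word the same. -/
def S_COVK : Prop := ∀ (N M a J : ℕ) [NeZero N], 2 * a + 2 ≤ M → N ≤ J * a →
  ∀ L : Perm (Fin N) → ℝ, IsLen L → ∀ d : ℝ,
  (∀ j ≤ J, ∀ g : Perm (Fin N), Perm.sign g = 1 → (∀ t : Fin N, M ≤ t.val → g t = t) →
    L ((Equiv.addRight (Fin.ofNat N a)) ^ j * g * ((Equiv.addRight (Fin.ofNat N a)) ^ j)⁻¹) ≤ d) →
  ∀ g : Perm (Fin N), Perm.sign g = 1 → L g ≤ d * 2 ^ (J + 1)

/-- **IDX** (the two elements of the index group).  May assume S_INV8, S_COVK.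
Proof. `N = 2 a' E`, `M = 4 a' + 2`, `κ = Equiv.addRight (Fin.ofNat N (2 a'))`; `κ^E = 1` (`y_pow_val`: the value is `t + E · 2 a' = t + N` mod `N`).  `ψ : Fin M ↪ Fin N` the initial segment (`M ≤ N`).  INV8 for `a` and for `b` (`M ≥ 6`): involutions `T : Fin 16 → Perm (Fin M)`, `S i = (T i).viaEmbedding ψ`,
`z = ∏_(i < 16) κ^(4^(i+1)) (S i) κ^(-4^(i+1))` as in `Pool.Agent.Helper62.PairD.two_gen_words` (with `s = 16`, shift `2 a'`: `M ≤ 3 · 2 a'`, `4^18 · 2 a' ≤ N`).  The factors commute pairwise (`disj_abs` there, as in the proof of `two_gen_words`) and are involutions, so `z² = 1`.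
`two_gen_words`: for `i ≠ j` there is `|t| ≤ 4^16` with `[z, κ^t z κ^(-t)] = κ^(4^(i+1)) [S i, S j] κ^(-4^(i+1))`, so `L [S i, S j] ≤ 2 Λ` by the two hypotheses (conjugation by `κ^(-4^(i+1))`); so `L (a.viaEmbedding ψ) ≤ 8 Λ`, the same for `b`, and by BlkKaz `L ≤ 16 C₀ Λ` on the even permutations supported in the first block
(each is a `g.viaEmbedding ψ` with `g` even, cf. `blockHom_surj` in Pool/Agent/Helper15/Pair/Kaz.lean).  COVK with `a = 2 a'`, `J = E`, `d = 16 C₀ Λ + Λ`: `C = (16 C₀ + 1) 2^(E+1)`. -/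
def S_IDX : Prop := ∀ (E : ℕ) (C₀ : ℝ), 4 ^ 18 ≤ E → 0 ≤ C₀ → ∃ C : ℝ, 0 ≤ C ∧
  ∀ a' : ℕ, 1 ≤ a' → ∀ a b : Perm (Fin (4 * a' + 2)), Perm.sign a = 1 → Perm.sign b = 1 →
  ∃ z κ : Perm (Fin (2 * a' * E)), z * z = 1 ∧ κ ^ E = 1 ∧
    ∀ L : Perm (Fin (2 * a' * E)) → ℝ, IsLen L → BlkKaz C₀ a b L → ∀ Λ : ℝ, 0 ≤ Λ →
    (∀ k : ℤ, |k| ≤ 4 ^ 16 →
      L (z * (κ ^ k * z * (κ ^ k)⁻¹) * z⁻¹ * (κ ^ k * z * (κ ^ k)⁻¹)⁻¹) ≤ Λ) →
    (∀ k : ℤ, |k| ≤ (E : ℤ) + 4 ^ 16 → ∀ g, L (κ ^ k * g * (κ ^ k)⁻¹) ≤ L g + Λ) →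
    ∀ g, Perm.sign g = 1 → L g ≤ C * Λ

/-- `L` is at most `d` on the alternating group of `S` -/
def AB {n : ℕ} (L : Perm (Fin n) → ℝ) (d : ℝ) (S : Finset (Fin n)) : Prop :=
  ∀ g : Perm (Fin n), Perm.sign g = 1 → g.support ⊆ S → L g ≤ d

/-- **CHAIN** (translates overlapping by half).
Proof. (UN2) If `AB L d₁ X`, `AB L d₂ Y`, `|Y \ X| ≤ |X ∩ Y|` and `4 ≤ |X ∩ Y|`, then `AB L (4 d₁ + 3 d₂) (X ∪ Y)`: choose `Y' ⊆ Y` with `X ∩ Y ⊆ Y'` and `|Y' \ X| = min(|Y \ X|, |X ∩ Y| - 2)`, apply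
`Pool.Agent.H29.Pair.union_step` (`(Y \ X).card + 2 ≤ (X ∩ Y).card → … L g ≤ 2 d₁ + d₂` on `X ∪ Y`) to `X, Y'` and then to `X ∪ Y', Y` (at most two points are missing, and `|(X ∪ Y') ∩ Y| ≥ 4`): `2 (2 d₁ + d₂) + d₂`.  (`d₁, d₂ ≥ 0` because `L 1 = 0`.)
(TR) `AB L d S → AB L (d + 2 L h) (S.image h)`: conjugate by `h` (`IsLen.of_conj`).  Let `D = d + 2 K L h` and `X_l = ⋃_(i ≤ l) h^i S`, `Y = h^(l+1) S`; `AB L D Y`; `X_l ∩ Y ⊇ h^l (S ∩ h S)`, so `|Y \ X_l| ≤ |S| - |S ∩ h S| ≤ |S ∩ h S| ≤ |X_l ∩ Y|`.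
Induction on `l ≤ K`: `AB L (8^l D) X_l`, since `4 · 8^l D + 3 D ≤ 8^(l+1) D`. -/
def S_CHAIN : Prop := ∀ (n K : ℕ) (L : Perm (Fin n) → ℝ) (d : ℝ) (h : Perm (Fin n))
  (S : Finset (Fin n)), IsLen L → AB L d S → 4 ≤ (S ∩ S.image h).card →
  S.card ≤ 2 * (S ∩ S.image h).card →
  AB L (8 ^ K * (d + 2 * K * L h)) ((Finset.range (K + 1)).biUnion fun l => S.image (h ^ l))

/-- the standard base embedding: two paths in each of the chosen intervals of length `2m+1` -/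
def Std {n N : ℕ} (m N₀ : ℕ) (c : ℕ → ℕ) (φ : Fin N ↪ Fin n) : Prop :=
  N = 2 * N₀ ∧ (∀ i < N₀, (2 * m + 1) * (c i + 1) ≤ n) ∧
  (∀ i < N₀, ∀ j < N₀, c i = c j → i = j) ∧
  ∀ t : Fin N, (φ t).val = (2 * m + 1) * c (t.val % N₀) + (t.val / N₀) * m

/-- deep points: the last `R` points up to `p` are in chosen intervals -/
def Deep (m N₀ : ℕ) (c : ℕ → ℕ) (R p : ℕ) : Prop :=
  R ≤ p ∧ ∀ q, p ≤ q + R → q ≤ p → ∃ i < N₀, c i = q / (2 * m + 1)

/-- **STD** (facts on the standard embedding).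
Proof. `D = 2m+1`.  For `j ≤ m` the point `σ^j (φ t)` has the value `(φ t).val + j < D (c i + 1) ≤ n`, `i = t % N₀` (no wrap: `(t / N₀) m + j ≤ 2 m`, `t / N₀ ≤ 1`), so its interval index (`/ D`) is `c i`; the rest modulo `D` is `(t/N₀) m + j`.  Two such points with `j, j' < m` agree only if `c i = c i'`, so `i = i'`, and
`(t/N₀) m + j = (t'/N₀) m + j'`, so `j = j'`, `t/N₀ = t'/N₀`, `t = t'`.  The second claim: the interval index of the point is `c i`.  (3): existence of `φ` (injective by the same computation with `j = 0`). -/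
def S_STD : Prop := (∀ (n N m N₀ : ℕ) (c : ℕ → ℕ) (φ : Fin N ↪ Fin n), 1 ≤ m → Std m N₀ c φ →
  Sep φ m ∧ ∀ ι : Perm (Fin n),
    (∀ q : Fin n, (∃ i < N₀, c i = q.val / (2 * m + 1)) → ι q = q) → Off φ m ι) ∧
  ∀ (n m N₀ : ℕ) (c : ℕ → ℕ), 1 ≤ m → (∀ i < N₀, (2 * m + 1) * (c i + 1) ≤ n) →
    (∀ i < N₀, ∀ j < N₀, c i = c j → i = j) → ∀ N, N = 2 * N₀ →
      ∃ φ : Fin N ↪ Fin n, Std m N₀ c φ

/-- layer 2 as a set -/
noncomputable def lay2 {n N : ℕ} (φ : Fin N ↪ Fin n) : Finset (Fin n) :=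
  Finset.univ.image fun t => ((finRotate n) ^ 2) (φ t)

/-- **HALF** (half overlap).
Proof. `|lay2 φ| = N = 2 N₀` (injective).  `X = σ ι₁`.  For `i < N₀` the point `σ² φ(i)` has the value `D c_i + 2`; all points of the interval `c_i` are fixed by `ι₁`, so `X^m` maps it to the point of value `D c_i + 2 + m = σ² φ(i + N₀)` (`2 + m ≤ 2m`).  So `lay2 φ ∩ X^m lay2 φ` contains the `N₀` points `σ² φ(i + N₀)`. -/
def S_HALF : Prop := ∀ (n N m N₀ : ℕ) (c : ℕ → ℕ) (φ : Fin N ↪ Fin n) (ι₁ : Perm (Fin n)),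
  3 ≤ m → Std m N₀ c φ →
  (∀ q : Fin n, (∃ i < N₀, c i = q.val / (2 * m + 1)) → ι₁ q = q) →
  (lay2 φ).card = 2 * N₀ ∧
    N₀ ≤ ((lay2 φ) ∩ (lay2 φ).image ((finRotate n * ι₁) ^ m)).card

/-- **DEEP** (the translates contain the deep points).
Proof. `D = 2m+1`, `R = 2 m²`.  As `m` is invertible modulo `D` (`2 m ≡ -1`) there is `l ≤ 2 m` with `p - l m ≡ 2` mod `D` (`l ≡ -2 (p - 2)`).  `q = p - l m ≥ p - R ≥ 0` is in a chosen interval `c_i`, so `q = D c_i + 2 = σ² φ(i)`.  All points of `[q, p]` are in chosen intervals, so fixed by `ι₁`, hence `(σ ι₁)^(l m) q = q + l m = p`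
(no wrap: `p < n`). -/
def S_DEEP : Prop := ∀ (n N m N₀ : ℕ) (c : ℕ → ℕ) (φ : Fin N ↪ Fin n) (ι₁ : Perm (Fin n))
  (p : Fin n), 3 ≤ m → Std m N₀ c φ →
  (∀ q : Fin n, (∃ i < N₀, c i = q.val / (2 * m + 1)) → ι₁ q = q) →
  Deep m N₀ c (2 * m * m) p.val →
  p ∈ (Finset.range (2 * m + 1)).biUnion fun l =>
    (lay2 φ).image (((finRotate n * ι₁) ^ m) ^ l)

/-- the intervals of length `2m+1` without points of `B`, all but less than `E` of them -/
def Sel {n : ℕ} (m N₀ E : ℕ) (c : ℕ → ℕ) (B : Finset (Fin n)) : Prop :=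
  (∀ i < N₀, (2 * m + 1) * (c i + 1) ≤ n) ∧ (∀ i < N₀, ∀ j < N₀, c i = c j → i = j) ∧
  (∀ i < N₀, ∀ q ∈ B, q.val / (2 * m + 1) ≠ c i) ∧
  ∃ T : Finset ℕ, T.card < E ∧ ∀ k, (2 * m + 1) * (k + 1) ≤ n →
    (∃ i < N₀, c i = k) ∨ (∃ q ∈ B, q.val / (2 * m + 1) = k) ∨ k ∈ T

/-- **SEL** (selection).
Proof. `D = 2m+1`, `A` the set of the `k` with `D (k+1) ≤ n` (there are `n / D` of them) such that no point of `B` has index `k`: `|A| ≥ n/D - |B|`.  `N₀ = E (|A| / E)`, choose `A' ⊆ A` with `|A'| = N₀`, `c` enumerates `A'` (`Finset.equivFin`/`orderEmbOfFin`), `T = A \ A'`, `|T| < E`.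
`n < D (n/D + 1) ≤ D (N₀ + |T| + |B| + 1)`. -/
def S_SEL : Prop := ∀ (n m E : ℕ) (B : Finset (Fin n)), 1 ≤ E →
  ∃ (N₀ : ℕ) (c : ℕ → ℕ), E ∣ N₀ ∧ Sel m N₀ E c B ∧ n ≤ (2 * m + 1) * (N₀ + B.card + E + 1)

/-- **DEEPC** (almost all points are deep).
Proof. `D = 2m+1`.  If `p` is not deep then `p < R₀` or some `q ∈ [p - R₀, p]` has an interval index `k` which is not chosen; then `k` is the index of a point of `B`, or `k ∈ T`, or `k = n / D` (the incomplete last interval); at most `|B| + (E - 1) + 1` indices, and for each the points `p` are in `[D k, D k + D - 1 + R₀]`.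
So at most `R₀ + (|B| + E) (R₀ + D) ≤ n / 10` points are not deep. -/
def S_DEEPC : Prop := ∀ (n m N₀ E R₀ : ℕ) (c : ℕ → ℕ) (B : Finset (Fin n)), 1 ≤ m → 1 ≤ E →
  Sel m N₀ E c B → 10 * ((B.card + E + 2) * (R₀ + 2 * (2 * m + 1))) ≤ n → ∀ S : Finset (Fin n),
  (∀ p : Fin n, Deep m N₀ c R₀ p.val → p ∈ S) → 9 * n ≤ 10 * S.card

/-- every cyclic window of length `G` contains at most `k` points of `B` -/
def Sparse {n : ℕ} (k G : ℕ) (B : Finset (Fin n)) : Prop :=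
  ∀ p : Fin n, ((Finset.range G).filter fun i => ((finRotate n) ^ i) p ∈ B).card ≤ k

/-- length of the windows -/
def winLen (m E R₀ : ℕ) : ℕ := 2 * (2 * m + 1) * ((E + 5) * (R₀ + 3) + E + 10)

/-- **WIN** (windows contain deep points).
Proof. `D = 2m+1`, `W = (E+5)(R₀+3) + E + 10`, `R = 2 D W`.  The cyclic window `σ^i p`, `i < R ≤ n`, contains a linear window `[v, v + D W)`, `v + D W ≤ n` (cut at the wrap).  It contains at least `W - 1` consecutive full intervals `k₁, …, k₁ + W - 2` (`D (k+1) ≤ n`).  At most `4` of them contain points of `B` (Sparse, `R ≤ G`;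
different intervals give different points), at most `E - 1` are in `T`; so at most `E + 3` are not chosen, and there is a run of `R₀ + 2` consecutive chosen ones (cut the `W - 1 ≥ (E+4)(R₀+2)` intervals into `E + 4` blocks of `R₀ + 2` consecutive intervals; one block has no bad interval).  The last point of the run is deep. -/
def S_WIN : Prop := ∀ (n m N₀ E G R₀ : ℕ) (c : ℕ → ℕ) (B : Finset (Fin n)), 1 ≤ m → 1 ≤ E →
  Sel m N₀ E c B → Sparse 4 G B → winLen m E R₀ ≤ G → winLen m E R₀ ≤ n →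
  ∀ p : Fin n, ∃ i < winLen m E R₀, Deep m N₀ c R₀ (((finRotate n) ^ i) p).val

/-- product of the transpositions `(p i, q i)` -/
def gad {n b : ℕ} (p q : Fin b → Fin n) : Perm (Fin n) :=
  (List.ofFn fun i => swap (p i) (q i)).prod

/-- the pairs `p i < q i` are in increasing order, with gaps at least `G` between them and at the ends -/
def Spread {n b : ℕ} (G : ℕ) (p q : Fin b → Fin n) : Prop :=
  (∀ i, G ≤ (p i).val ∧ (p i).val < (q i).val ∧ (q i).val + G < n) ∧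
  ∀ i j, i < j → (q i).val + G ≤ (p j).val

/-- **GAD** (facts on gadgets).
Proof. The transpositions are pairwise disjoint (`1 ≤ G`).  (5): a cyclic window of length `G` which wraps contains no point `p i, q i` (they are at least `G` away from both ends); a linear window of `G` points cannot contain points of two different pairs. -/
def S_GAD : Prop := ∀ (n b G : ℕ) (p q : Fin b → Fin n), 1 ≤ G → Spread G p q →
  gad p q * gad p q = 1 ∧ (∀ i, gad p q (p i) = q i) ∧ (∀ i, gad p q (q i) = p i) ∧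
  (∀ r, (∀ i, r ≠ p i ∧ r ≠ q i) → gad p q r = r) ∧
  (∀ r : Fin n, ((Finset.range G).filter fun i => ∃ k, ((finRotate n) ^ i) r = p k ∨
    ((finRotate n) ^ i) r = q k).card ≤ 2)

/-- **ESC** (from every point one reaches `D` by a short word).  May assume S_GAD.
Proof. `X = σ gad`, `X⁻¹ = gad σ⁻¹`.  `X^i r = σ^i r` if none of `σ^(i') r`, `i' < i`, is a gadget point (`p k` or `q k`); `X^(-i) r = σ^(-i) r` if none of `σ^(-i') r`, `1 ≤ i' ≤ i`, is one.
(A) no gadget point among `σ^i r`, `i < R`: by hypothesis `D (σ^i r)` for some `i < R`, first alternative.  (B) none among `σ^(-i) r`, `1 ≤ i ≤ R`: the hypothesis at `σ^(-R) r` gives `D (σ^(-i) r)` with `1 ≤ i ≤ R`, second alternative.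
(C) otherwise let `f = σ^i r`, `i < R` minimal, be a gadget point and `b = σ^(-j) r`, `1 ≤ j ≤ R`, one: `f = σ^(i+j) b`, `1 ≤ i + j < 2R ≤ G`.  By Spread they belong to the same pair (no wrap, the margins are `G`; different pairs are `G` apart) and `b = p k`, `f = q k`.
`X^i r = q k`.  Among `σ^(-j') (p k)`, `1 ≤ j' ≤ R`, there is no gadget point (Spread), so (B) applies to `p k`: third alternative. -/
def S_ESC : Prop := ∀ (n b G R : ℕ) (p q : Fin b → Fin n) (D : Fin n → Prop), Spread G p q →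
  1 ≤ R → 2 * R ≤ G → (∀ r : Fin n, ∃ i < R, D (((finRotate n) ^ i) r)) → ∀ r : Fin n,
  (∃ i < R + 1, D (((finRotate n * gad p q) ^ i) r)) ∨
  (∃ i < R + 1, D (((finRotate n * gad p q)⁻¹ ^ i) r)) ∨
  (∃ i < R + 1, ∃ k, ((finRotate n * gad p q) ^ i) r = q k ∧
    ∃ i' < R + 1, D (((finRotate n * gad p q)⁻¹ ^ i') (p k)))

/-- **UNI** (union over short words).
Proof. `H` = the `X^i`, `X^(-i)` (`i < R`) and `X^(-i') u X^i` (`i, i' < R`): at most `2 R + R²` elements, `L h ≤ 2 R L X + L u`.  Every `r` is in `h⁻¹ S` for some `h ∈ H` (in the third case `X^(-i') u X^i r = X^(-i') (p k)`).  `AB L (d + 2 (2 R L X + L u)) (h⁻¹ S)` (conjugation).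
Add the sets `h⁻¹ S` one after the other to `S` with `Pool.Agent.H29.Pair.union_step`: `|Y \ X| ≤ n/10`, `|X ∩ Y| ≥ |Y| - n/10 ≥ 8n/10`, `n ≥ 40`.  After `k` steps the bound is `3^k D`, `D = d + 4 R L X + 2 L u`; `C = 3^(2R+R²) (4R + 2)`. -/
def S_UNI : Prop := ∀ R : ℕ, ∃ C : ℝ, 0 ≤ C ∧ ∀ (n b : ℕ) (L : Perm (Fin n) → ℝ)
  (X u : Perm (Fin n)) (d : ℝ) (S : Finset (Fin n)) (D : Fin n → Prop) (p q : Fin b → Fin n),
  IsLen L → AB L d S → 40 ≤ n → 9 * n ≤ 10 * S.card → (∀ r, D r → r ∈ S) →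
  (∀ k, u (q k) = p k) →
  (∀ r : Fin n, (∃ i < R, D ((X ^ i) r)) ∨ (∃ i < R, D ((X⁻¹ ^ i) r)) ∨
    (∃ i < R, ∃ k, (X ^ i) r = q k ∧ ∃ i' < R, D ((X⁻¹ ^ i') (p k)))) →
  ∀ g, Perm.sign g = 1 → L g ≤ C * (d + L X + L u)

/-- **CONJ** (conjugation from the cycles).
Proof. Choose base points `a_i ∈ A i`, `b_i ∈ B i` (when nonempty; both are empty or both nonempty).  For `r ∈ A i` choose `k : ℕ` with `r = x^k a_i`, `k < |A i|` (`IsCycleOn.exists_pow_eq`), and put `g r = y^k b_i`.  As `x^k a_i = x^l a_i ↔ k ≡ l mod |A i| ↔ y^k b_i = y^l b_i`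
(`IsCycleOn.pow_apply_eq_pow_apply`), `g` is well defined, injective, maps `A i` onto `B i`, and `g (x r) = y (g r)`. -/
def S_CONJ : Prop := ∀ (n : ℕ) (κ : Type) [Fintype κ] (x y : Perm (Fin n))
  (A B : κ → Finset (Fin n)), (∀ r, ∃! i, r ∈ A i) → (∀ r, ∃! i, r ∈ B i) →
  (∀ i, x.IsCycleOn (A i)) → (∀ i, y.IsCycleOn (B i)) → (∀ i, (A i).card = (B i).card) →
  ∃ g : Perm (Fin n), g * x * g⁻¹ = y

/-- **ROTG** (the cycles of `σ gad`).  May assume S_GAD.
Proof. `X = σ gad`.  `X r = r + 1` if `r` is no gadget point and `r + 1 < n`, `X (p k) = q k + 1`, `X (q k) = p k + 1`, `X (n-1) = 0` (values).  The set `C_k = (p k, q k]` is invariant and `X^j (p k + 1) = p k + 1 + j` for `j < q k - p k`, so `X` is a cycle on it.  The complement `M` of the union of the `C_k` is invariant, contains `0`, and every `r ∈ M`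
is `X^j 0` for some `j`: strong induction on `r > 0`: if `r - 1 ∈ M` is not a `p k`, then `X (r-1) = r` (`r - 1` is no `q k` since `q k ∉ M`); if `r - 1 = p k` then `r ∈ C_k`, excluded; if `r - 1 ∈ C_k` then `r - 1 = q k` and `X (p k) = r`, `p k ∈ M`. -/
def S_ROTG : Prop := ∀ (n b G : ℕ) (p q : Fin b → Fin n), 1 ≤ G → 1 ≤ n → Spread G p q →
  (∀ i, (finRotate n * gad p q).IsCycleOn
    {r : Fin n | (p i).val < r.val ∧ r.val ≤ (q i).val}) ∧
  (finRotate n * gad p q).IsCycleOn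
    {r : Fin n | ∀ i, ¬ ((p i).val < r.val ∧ r.val ≤ (q i).val)}

/-- **SPL** (normal form).  May assume S_CONJ, S_ROTG, S_GAD.
Proof. `a = cyc x ≥ 1`.  The classes of `Perm.SameCycle.setoid x` are sets `D_0, …, D_(a-1)` with `x.IsCycleOn D_i`, `l_i = |D_i| ≥ 1`, `∑ l_i = n`; enumerate them so that `D_(a-1)` is a largest one: `l_(a-1) ≥ n/a > a G`.  Put `p_i = (i+1) G + ∑_(k<i) l_k`, `q_i = p_i + l_i` for `i < a - 1`:
`q_i + G = p_(i+1)`, and `q_(a-2) + G = a G + ∑_(k < a-1) l_k = a G + n - l_(a-1) < n`.  So Spread.  By ROTG the cycles of `σ gad` are the `(p_i, q_i]` of length `l_i` and the rest, of length `l_(a-1)`.  CONJ. -/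
def S_SPL : Prop := ∀ (n G : ℕ) (x : Perm (Fin n)), 1 ≤ n → 1 ≤ G → cyc x * cyc x * G < n →
  ∃ p q : Fin (cyc x - 1) → Fin n, Spread G p q ∧
    ∃ g : Perm (Fin n), g * x * g⁻¹ = finRotate n * gad p q

/-- **ROT** (a disjoint rotation).
Proof. For every `a ∈ A`, `b ∈ B` there is exactly one `r < n` with `σ^r b = a`; so at most `|A| |B| < n` values `r < n` are bad. -/
def S_ROT : Prop := ∀ (n : ℕ) (A B : Finset (Fin n)), A.card * B.card < n →
  ∃ r < n, Disjoint A (B.image ((finRotate n) ^ r))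

/-- **CYC** (few cycles).
Proof. Burnside (`MulAction.sum_card_fixedBy_eq_card_orbits_mul_card_group`) for the action of `Perm (Fin n)` on the colourings `Fin n → Bool` (for example the finsets of `Fin n`, or `DomMulAct`, or functions with `(g • c) i = c (g⁻¹ i)`): a colouring fixed by `x` is a function on the classes of `Perm.SameCycle.setoid x`, so there are at least
(exactly) `2^(cyc x)` of them; there are at most `n + 1` orbits (two finsets with the same number of points are in one orbit).  So `∑_x 2^(cyc x) ≤ (n+1) n!`. -/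
def S_CYC : Prop := ∀ n K : ℕ,
  Nat.card {x : Perm (Fin n) // K ≤ cyc x} * 2 ^ K ≤ (n + 1) * n.factorial

/-- **CNT** (elements of exponent `E`).
Proof. `q = N / E`, `r = N - q E < E`.  The permutations of cycle type `replicate q E` have `f^E = 1`; their number is `N! / (r! E^q q!)` (`Equiv.Perm.card_of_cycleType`; for `q = 0` it is the identity).  `r! ≤ E!`, `E^q q! ≤ (E q)^q ≤ N^q`. -/
def S_CNT : Prop := ∀ E N : ℕ, 2 ≤ E →
  (N.factorial : ℝ) ≤ E.factorial * (N : ℝ) ^ (N / E) * Nat.card {f : Perm (Fin N) // f ^ E = 1}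

/-- **NUM** (numbers).  May assume S_CNT.
Proof. `m ≥ 40/δ`, `m ≥ 10`; `E ≥ 8/δ` odd, `E ≥ 4^18`.  `β ≤ 4 √n`, so `N = 2 N₀ ≥ 2 n/(2m+1) - 2β - 2E - 2 ≥ (2/(2m+1)) n (1 - o(1))`.  `log (#) ≥ log N! - log E! - (N/E) log N ≥ (1 - 1/E) N log N - N - log E!` (`N! ≥ (N/e)^N`: `Real.log_factorial`-type bound, or `Nat.factorial_lt`…), `log N ≥ log n - log (2m+1)` for large `n`; so
`(m-9) log (#) ≥ (2(m-9)/(2m+1)) (1 - 1/E) (1 - o(1)) n log n ≥ (1 - 19/(2m+1) - 1/E - o(1)) n log n ≥ (1 - δ) n log n ≥ (1-δ) log n!`. -/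
def S_NUM : Prop := ∀ δ : ℝ, 0 < δ → δ < 1 → ∃ m E : ℕ, 10 ≤ m ∧ Odd E ∧ 4 ^ 18 ≤ E ∧
  ∀ᶠ n : ℕ in atTop, ∀ N N₀ β : ℕ, N = 2 * N₀ → β * β ≤ 16 * n → (2 * m + 1) * N₀ ≤ n →
    n ≤ (2 * m + 1) * (N₀ + β + E + 1) →
    (n.factorial : ℝ) ^ (1 - δ) ≤ (Nat.card {f : Perm (Fin N) // f ^ E = 1} : ℝ) ^ (m - 9)

end Pool.Agent.Helper6.CX
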