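import Pool.Agent.Helper6.CX.Goals

/-! Basic facts on layers. -/

namespace Pool.Agent.Helper6.CX

open Equiv

section
variable {n N : ℕ} (φ : Fin N ↪ Fin n)

/-- `lay` as a homomorphism -/
noncomputable def layHom (j : ℕ) : Perm (Fin N) →* Perm (Fin n) :=
  (MulAut.conj ((finRotate n) ^ j)).toMonoidHom.comp (Perm.viaEmbeddingHom φ)

theorem layHom_apply (j : ℕ) (g : Perm (Fin N)) : layHom φ j g = lay φ j g := rfl

theorem lay_mul (j : ℕ) (g h : Perm (Fin N)) : lay φ j (g * h) = lay φ j g * lay φ j h := by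
  rw [← layHom_apply, map_mul]; rfl

theorem lay_one (j : ℕ) : lay φ j 1 = 1 := by rw [← layHom_apply, map_one]

theorem lay_inv (j : ℕ) (g : Perm (Fin N)) : lay φ j g⁻¹ = (lay φ j g)⁻¹ := by
  rw [← layHom_apply, map_inv]; rfl

theorem lay_pow (j : ℕ) (g : Perm (Fin N)) (k : ℕ) : lay φ j (g ^ k) = (lay φ j g) ^ k := by
  rw [← layHom_apply, map_pow]; rfl

theorem lay_zpow (j : ℕ) (g : Perm (Fin N)) (k : ℤ) : lay φ j (g ^ k) = (lay φ j g) ^ k := by
  rw [← layHom_apply, map_zpow]; rfl

theorem lay_apply (j : ℕ) (g : Perm (Fin N)) (t : Fin N) :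
    lay φ j g (((finRotate n) ^ j) (φ t)) = ((finRotate n) ^ j) (φ (g t)) := by
  unfold lay
  rw [Perm.mul_apply, Perm.mul_apply, ← Perm.mul_apply ((finRotate n ^ j)⁻¹), inv_mul_cancel,
    Perm.one_apply, Perm.viaEmbedding_apply]

theorem lay_apply_of_notMem (j : ℕ) (g : Perm (Fin N)) (p : Fin n)
    (h : ∀ t, ((finRotate n) ^ j) (φ t) ≠ p) : lay φ j g p = p := by
  unfold lay
  rw [Perm.mul_apply, Perm.mul_apply, Perm.viaEmbedding_apply_of_notMem, ← Perm.mul_apply,
    mul_inv_cancel, Perm.one_apply]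
  rintro ⟨t, ht⟩
  apply h t
  rw [ht, ← Perm.mul_apply, mul_inv_cancel, Perm.one_apply]

theorem lay_injective (j : ℕ) : Function.Injective (lay φ j) := by
  intro g h hgh
  refine Equiv.ext fun t => ?_
  have h1 := lay_apply φ j g t
  rw [hgh, lay_apply φ j h t] at h1
  exact (φ.injective (((finRotate n) ^ j).injective h1)).symm

theorem via_sign (g : Perm (Fin N)) : Perm.sign (g.viaEmbedding φ) = Perm.sign g := by
  unfold Perm.viaEmbedding
  exact @Perm.sign_extendDomain _ _ _ _ _ _ g _ (fun a => Classical.propDecidable _)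
    (Equiv.ofInjective φ.1 φ.2)

theorem via_card {α : Type} [Fintype α] [DecidableEq α] (ψ : α ↪ Fin n) (g : Perm α) :
    (g.viaEmbedding ψ).support.card = g.support.card := by
  unfold Perm.viaEmbedding
  exact @Perm.card_support_extend_domain _ _ _ _ _ _ _ (fun a => Classical.propDecidable _)
    (Equiv.ofInjective ψ.1 ψ.2) g

theorem lay_sign (j : ℕ) (g : Perm (Fin N)) : Perm.sign (lay φ j g) = Perm.sign g := by
  unfold lay
  rw [Perm.sign_mul, Perm.sign_mul, Perm.sign_inv, mul_comm (Perm.sign (finRotate n ^ j)),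
    mul_assoc, Int.units_mul_self, mul_one]
  exact via_sign φ g

theorem lay_commute {m : ℕ} (hS : Sep φ m) {j j' : ℕ} (hj : j < m) (hj' : j' < m) (hne : j ≠ j')
    (g h : Perm (Fin N)) : Commute (lay φ j g) (lay φ j' h) := by
  have hd : Perm.Disjoint (lay φ j g) (lay φ j' h) := by
    intro p
    by_cases h1 : ∃ t, ((finRotate n) ^ j) (φ t) = p
    · right
      obtain ⟨t, rfl⟩ := h1
      refine lay_apply_of_notMem φ j' h _ fun t' ht' => ?_
      exact hne (hS j' hj' j hj t' t ht').1.symm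
    · left
      push Not at h1
      exact lay_apply_of_notMem φ j g p h1
  exact hd.commute

/-- a permutation fixing layer `j` pointwise commutes with it -/
theorem lay_commute_of_fix (j : ℕ) (g : Perm (Fin N)) (ι : Perm (Fin n))
    (h : ∀ t, ι (((finRotate n) ^ j) (φ t)) = ((finRotate n) ^ j) (φ t)) :
    Commute (lay φ j g) ι := by
  have hd : Perm.Disjoint (lay φ j g) ι := by
    intro p
    by_cases h1 : ∃ t, ((finRotate n) ^ j) (φ t) = p
    · right
      obtain ⟨t, rfl⟩ := h1
      exact h t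
    · left
      push Not at h1
      exact lay_apply_of_notMem φ j g p h1
  exact hd.commute

/-- conjugation of layer `j` by a permutation acting on it as the rotation -/
theorem lay_conj (j : ℕ) (g : Perm (Fin N)) (ι : Perm (Fin n))
    (h : ∀ t, ι (((finRotate n) ^ j) (φ t)) = ((finRotate n) ^ j) (φ t)) :
    (finRotate n * ι) * lay φ j g * (finRotate n * ι)⁻¹ = lay φ (j + 1) g := by
  have h1 := lay_commute_of_fix φ j g ι h
  have h2 : ι * lay φ j g * ι⁻¹ = lay φ j g := by
    rw [← h1.eq, mul_inv_cancel_right]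
  have h3 : (finRotate n * ι) * lay φ j g * (finRotate n * ι)⁻¹ =
      finRotate n * (ι * lay φ j g * ι⁻¹) * (finRotate n)⁻¹ := by group
  rw [h3, h2]
  unfold lay
  rw [pow_succ']
  group

theorem layers_zero (ρ : ℕ → Perm (Fin N)) : layers φ 0 ρ = 1 := rfl

theorem layers_succ (m : ℕ) (ρ : ℕ → Perm (Fin N)) :
    layers φ (m + 1) ρ = layers φ m ρ * lay φ m (ρ m) := by
  unfold layers
  rw [List.range_succ, List.map_append, List.prod_append]
  simp

theorem layers_apply_of_notMem (m : ℕ) (ρ : ℕ → Perm (Fin N)) (p : Fin n)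
    (h : ∀ j < m, ∀ t, ((finRotate n) ^ j) (φ t) ≠ p) : layers φ m ρ p = p := by
  induction m with
  | zero => rfl
  | succ m ih =>
    rw [layers_succ, Perm.mul_apply, lay_apply_of_notMem φ m _ _ (h m (Nat.lt_succ_self m)),
      ih fun j hj => h j (Nat.lt_succ_of_lt hj)]

theorem Sep.mono {m m' : ℕ} (h : m ≤ m') (hS : Sep φ m') : Sep φ m :=
  fun j hj j' hj' t t' => hS j (hj.trans_le h) j' (hj'.trans_le h) t t'

theorem layers_apply {m : ℕ} (hS : Sep φ m) (ρ : ℕ → Perm (Fin N)) {j : ℕ} (hj : j < m)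
    (t : Fin N) : layers φ m ρ (((finRotate n) ^ j) (φ t)) = ((finRotate n) ^ j) (φ (ρ j t)) := by
  induction m with
  | zero => exact absurd hj (Nat.not_lt_zero j)
  | succ m ih =>
    rw [layers_succ, Perm.mul_apply]
    by_cases hjm : j = m
    · subst hjm
      rw [lay_apply]
      refine layers_apply_of_notMem φ j ρ _ fun j' hj' t' ht' => ?_
      have := (hS j' (by omega) j (by omega) t' _ ht').1
      omega
    · have h1 : lay φ m (ρ m) (((finRotate n) ^ j) (φ t)) = ((finRotate n) ^ j) (φ t) := by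
        refine lay_apply_of_notMem φ m _ _ fun t' ht' => ?_
        exact hjm (hS m (by omega) j (by omega) t' t ht').1.symm
      rw [h1]
      exact ih (Sep.mono φ (Nat.le_succ m) hS) (by omega)

/-- the layers determine the contents -/
theorem layers_inj {m : ℕ} (hS : Sep φ m) (ρ ρ' : ℕ → Perm (Fin N))
    (h : layers φ m ρ = layers φ m ρ') {j : ℕ} (hj : j < m) : ρ j = ρ' j := by
  refine Equiv.ext fun t => ?_
  have h1 := layers_apply φ hS ρ hj t
  rw [h, layers_apply φ hS ρ' hj t] at h1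
  exact (φ.injective (((finRotate n) ^ j).injective h1)).symm

end

end Pool.Agent.Helper6.CX
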