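import Pool.Agent.Helper6.CX.Det
import Pool.Agent.Helper15.Pair.All

/-! Many conjugates: for `x`, `y` in `A_n` with few cycles, at least `(n!)^(1-δ)` elements `g` of the
symmetric group make `(x, g y g⁻¹)` a Kazhdan pair. -/

namespace Pool.Agent.Helper6.CX

open Equiv Filter Topology
open Pool.Agent.Helper15.Pair (IsLen len KazPair kaz_all len_isLen len_coe)

section
variable {n : ℕ}

theorem KazC.conj {C : ℝ} {x y : alternatingGroup (Fin n)} (h : KazC C x y) (g : Perm (Fin n)) :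
    KazC C (MulAut.conjNormal g x) (MulAut.conjNormal g y) := by
  intro V _ _ _ ρ hρ v k
  have h1 := h V (ρ.comp (MulAut.conjNormal g : MulAut (alternatingGroup (Fin n))).toMonoidHom)
    (fun a w => hρ _ w) v ((MulAut.conjNormal g : MulAut (alternatingGroup (Fin n))).symm k)
  have h2 : (MulAut.conjNormal g : MulAut (alternatingGroup (Fin n)))
      ((MulAut.conjNormal g : MulAut (alternatingGroup (Fin n))).symm k) = k :=
    MulEquiv.apply_symm_apply _ _
  have h3 : ∀ a, (ρ.comp (MulAut.conjNormal g : MulAut (alternatingGroup (Fin n))).toMonoidHom) a =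
      ρ ((MulAut.conjNormal g : MulAut (alternatingGroup (Fin n))) a) := fun a => rfl
  rw [h3, h3, h3, h2] at h1
  exact h1

/-- points of the gadgets -/
noncomputable def gpts {b : ℕ} (p q : Fin b → Fin n) : Finset (Fin n) :=
  Finset.univ.image p ∪ Finset.univ.image q

theorem mem_gpts {b : ℕ} (p q : Fin b → Fin n) (r : Fin n) :
    r ∈ gpts p q ↔ ∃ k, r = p k ∨ r = q k := by
  unfold gpts
  simp only [Finset.mem_union, Finset.mem_image, Finset.mem_univ, true_and]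
  constructor
  · rintro (⟨k, hk⟩ | ⟨k, hk⟩)
    · exact ⟨k, Or.inl hk.symm⟩
    · exact ⟨k, Or.inr hk.symm⟩
  · rintro ⟨k, hk | hk⟩
    · exact Or.inl ⟨k, hk.symm⟩
    · exact Or.inr ⟨k, hk.symm⟩

theorem card_gpts {b : ℕ} (p q : Fin b → Fin n) : (gpts p q).card ≤ 2 * b := by
  unfold gpts
  refine (Finset.card_union_le _ _).trans ?_
  have h1 := Finset.card_image_le (s := (Finset.univ : Finset (Fin b))) (f := p)
  have h2 := Finset.card_image_le (s := (Finset.univ : Finset (Fin b))) (f := q)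
  rw [Finset.card_univ, Fintype.card_fin] at h1 h2
  omega

end

/-- the structured data for `x`, `y` -/
theorem setup (hSPL : S_SPL) (hROT : S_ROT) (hGAD : S_GAD) (n G : ℕ) (x y : Perm (Fin n))
    (hn : 1 ≤ n) (hG : 4 ≤ G)
    (hx : (G + 1) * (cyc x * cyc x) ≤ n) (hy : (G + 1) * (cyc y * cyc y) ≤ n) :
    ∃ (b₁ : ℕ) (p q : Fin b₁ → Fin n) (ι₂ : Perm (Fin n)) (B : Finset (Fin n)) (g₁ g₂ : Perm (Fin n)),
      Spread G p q ∧ (∀ k, p k ∈ B ∧ q k ∈ B) ∧ (∀ r, r ∉ B → ι₂ r = r) ∧ Sparse 4 G B ∧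
      ι₂ * ι₂ = 1 ∧ (∀ k, ι₂ (p k) = p k ∧ ι₂ (q k) = q k) ∧ B.card * B.card ≤ 16 * n ∧
      g₁ * x * g₁⁻¹ = finRotate n * gad p q ∧ g₂ * y * g₂⁻¹ = finRotate n * ι₂ := by
  have hx2 : cyc x * cyc x * G < n := by
    rcases Nat.eq_zero_or_pos (cyc x * cyc x) with h | h
    · rw [h]; omega
    · nlinarith
  have hy2 : cyc y * cyc y * G < n := by
    rcases Nat.eq_zero_or_pos (cyc y * cyc y) with h | h
    · rw [h]; omega
    · nlinarith
  obtain ⟨p₁, q₁, hS₁, g₁, hg₁⟩ := hSPL n G x hn (by omega) hx2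
  obtain ⟨p₂, q₂, hS₂, g₂, hg₂⟩ := hSPL n G y hn (by omega) hy2
  obtain ⟨ha1, ha2, ha3, ha4, ha5⟩ := hGAD n _ G p₁ q₁ (by omega) hS₁
  obtain ⟨hb1, hb2, hb3, hb4, hb5⟩ := hGAD n _ G p₂ q₂ (by omega) hS₂
  have hcA := card_gpts p₁ q₁
  have hcB := card_gpts p₂ q₂
  have hcA' : (gpts p₁ q₁).card ≤ 2 * cyc x := by omega
  have hcB' : (gpts p₂ q₂).card ≤ 2 * cyc y := by omega
  have hxy : (G + 1) * (cyc x * cyc y) ≤ n := by
    have h1 : 2 * (cyc x * cyc y) ≤ cyc x * cyc x + cyc y * cyc y := by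
      have := two_mul_le_add_sq (cyc x) (cyc y)
      nlinarith [this]
    nlinarith
  obtain ⟨r, hr, hdis⟩ := hROT n (gpts p₁ q₁) (gpts p₂ q₂) (by
    calc (gpts p₁ q₁).card * (gpts p₂ q₂).card ≤ (2 * cyc x) * (2 * cyc y) :=
          Nat.mul_le_mul hcA' hcB'
      _ = 4 * (cyc x * cyc y) := by ring
      _ < n := by
        rcases Nat.eq_zero_or_pos (cyc x * cyc y) with h | h
        · rw [h]; omega
        · nlinarith)
  set s := (finRotate n) ^ r with hs
  set B' := (gpts p₂ q₂).image s with hB'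
  have hfix2 : ∀ r', r' ∉ B' → (s * gad p₂ q₂ * s⁻¹) r' = r' := by
    intro r' hr'
    have h1 : s⁻¹ r' ∉ gpts p₂ q₂ := by
      intro h
      refine hr' (Finset.mem_image.2 ⟨_, h, ?_⟩)
      rw [← Perm.mul_apply, mul_inv_cancel, Perm.one_apply]
    rw [mem_gpts] at h1
    push Not at h1
    rw [Perm.mul_apply, Perm.mul_apply, hb4 _ h1, ← Perm.mul_apply, mul_inv_cancel, Perm.one_apply]
  have hnotB' : ∀ r', r' ∈ gpts p₁ q₁ → r' ∉ B' := fun r' h h' =>
    (Finset.disjoint_left.1 hdis) h h'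
  refine ⟨_, p₁, q₁, s * gad p₂ q₂ * s⁻¹, gpts p₁ q₁ ∪ B', g₁, s * g₂, hS₁, ?_, ?_, ?_, ?_, ?_, ?_,
    hg₁, ?_⟩
  · intro k
    exact ⟨Finset.mem_union_left _ ((mem_gpts _ _ _).2 ⟨k, Or.inl rfl⟩),
      Finset.mem_union_left _ ((mem_gpts _ _ _).2 ⟨k, Or.inr rfl⟩)⟩
  · intro r' hr'
    exact hfix2 r' fun h => hr' (Finset.mem_union_right _ h)
  · intro t
    have h1 := ha5 t
    have h2 := hb5 (s⁻¹ t)
    have h3 : ((Finset.range G).filter fun i => ((finRotate n) ^ i) t ∈ gpts p₁ q₁ ∪ B') ⊆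
        ((Finset.range G).filter fun i => ∃ k, ((finRotate n) ^ i) t = p₁ k ∨
          ((finRotate n) ^ i) t = q₁ k) ∪
        ((Finset.range G).filter fun i => ∃ k, ((finRotate n) ^ i) (s⁻¹ t) = p₂ k ∨
          ((finRotate n) ^ i) (s⁻¹ t) = q₂ k) := by
      intro i hi
      rw [Finset.mem_filter] at hi
      rcases Finset.mem_union.1 hi.2 with h | h
      · exact Finset.mem_union_left _ (Finset.mem_filter.2 ⟨hi.1, (mem_gpts _ _ _).1 h⟩)
      · refine Finset.mem_union_right _ (Finset.mem_filter.2 ⟨hi.1, ?_⟩)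
        obtain ⟨w, hw, hw2⟩ := Finset.mem_image.1 h
        have h4 : ((finRotate n) ^ i) (s⁻¹ t) = w := by
          have h5 : (finRotate n) ^ i * s⁻¹ = s⁻¹ * (finRotate n) ^ i := by
            rw [hs]
            exact (((Commute.refl (finRotate n)).pow_pow i r).inv_right).eq
          rw [← Perm.mul_apply, h5, Perm.mul_apply, ← hw2, ← Perm.mul_apply, inv_mul_cancel,
            Perm.one_apply]
        rw [h4]
        exact (mem_gpts _ _ _).1 hw
    refine (Finset.card_le_card h3).trans ((Finset.card_union_le _ _).trans ?_)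
    omega
  · have h1 : (s * gad p₂ q₂ * s⁻¹) * (s * gad p₂ q₂ * s⁻¹) =
        s * (gad p₂ q₂ * gad p₂ q₂) * s⁻¹ := by group
    rw [h1, hb1, mul_one, mul_inv_cancel]
  · intro k
    exact ⟨hfix2 _ (hnotB' _ ((mem_gpts _ _ _).2 ⟨k, Or.inl rfl⟩)),
      hfix2 _ (hnotB' _ ((mem_gpts _ _ _).2 ⟨k, Or.inr rfl⟩))⟩
  · have h1 : (gpts p₁ q₁ ∪ B').card ≤ 2 * cyc x + 2 * cyc y := by
      refine (Finset.card_union_le _ _).trans ?_
      have h2 : B'.card ≤ (gpts p₂ q₂).card := Finset.card_image_le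
      omega
    have h3 : 2 * (cyc x * cyc y) ≤ cyc x * cyc x + cyc y * cyc y := by
      have := two_mul_le_add_sq (cyc x) (cyc y)
      nlinarith [this]
    calc (gpts p₁ q₁ ∪ B').card * (gpts p₁ q₁ ∪ B').card
        ≤ (2 * cyc x + 2 * cyc y) * (2 * cyc x + 2 * cyc y) := Nat.mul_le_mul h1 h1
      _ = 4 * (cyc x * cyc x) + 4 * (cyc y * cyc y) + 4 * (2 * (cyc x * cyc y)) := by ring
      _ ≤ 8 * (cyc x * cyc x) + 8 * (cyc y * cyc y) := by omega
      _ ≤ 16 * n := by nlinarith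
  · have h1 : s * finRotate n = finRotate n * s := by
      rw [hs]
      exact ((Commute.refl (finRotate n)).pow_left r).eq
    calc s * g₂ * y * (s * g₂)⁻¹ = s * (g₂ * y * g₂⁻¹) * s⁻¹ := by group
      _ = s * finRotate n * gad p₂ q₂ * s⁻¹ := by rw [hg₂]; group
      _ = finRotate n * (s * gad p₂ q₂ * s⁻¹) := by rw [h1]; group

/-- the number of chosen intervals -/
theorem sel_le {n m N₀ E : ℕ} {c : ℕ → ℕ} {B : Finset (Fin n)} (h : Sel m N₀ E c B) :
    (2 * m + 1) * N₀ ≤ n := by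
  have h1 : N₀ ≤ n / (2 * m + 1) := by
    have h2 : ((Finset.range N₀).image c).card = N₀ := by
      rw [Finset.card_image_of_injOn, Finset.card_range]
      intro i hi j hj hij
      exact h.2.1 i (Finset.mem_range.1 hi) j (Finset.mem_range.1 hj) hij
    have h3 : (Finset.range N₀).image c ⊆ Finset.range (n / (2 * m + 1)) := by
      intro k hk
      obtain ⟨i, hi, rfl⟩ := Finset.mem_image.1 hk
      rw [Finset.mem_range]
      have h4 := h.1 i (Finset.mem_range.1 hi)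
      have h5 : (c i + 1) ≤ n / (2 * m + 1) := by
        rw [Nat.le_div_iff_mul_le (by omega)]
        rw [mul_comm]
        exact h4
      omega
    have h4 := Finset.card_le_card h3
    rw [h2, Finset.card_range] at h4
    exact h4
  calc (2 * m + 1) * N₀ ≤ (2 * m + 1) * (n / (2 * m + 1)) := Nat.mul_le_mul_left _ h1
    _ ≤ n := Nat.mul_div_le n (2 * m + 1)

theorem rev_succ {G : Type} [Group G] (h : ℕ → G) (k : ℕ) :
    ((List.range (k + 1)).reverse.map h).prod = h k * ((List.range k).reverse.map h).prod := by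
  rw [List.range_succ, List.reverse_append, List.map_append, List.prod_append]
  simp

theorem rev_prod {N : ℕ} (z κ τ₁ τ₂ : Perm (Fin N)) (f : ℕ → Perm (Fin N)) (m : ℕ) :
    ((List.range (m + 9)).reverse.map (rho z κ τ₁ τ₂ f)).prod =
      ((List.range m).reverse.map f).prod * (τ₂ * τ₁ * (z * z)) := by
  induction m with
  | zero =>
    simp [List.range_succ, rho, mul_assoc]
  | succ m ih =>
    have h1 : m + 1 + 9 = (m + 9) + 1 := by ring
    rw [h1, rev_succ (rho z κ τ₁ τ₂ f) (m + 9), rev_succ f m, ih, mul_assoc]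
    rfl

/-- enough room -/
theorem room {n s W E : ℕ} (hs : s * s ≤ 16 * n) (h1 : 20 * ((E + 2) * W) ≤ n)
    (h2 : 6400 * (W * W) ≤ n) : 10 * ((s + E + 2) * W) ≤ n := by
  have h3 : 20 * (s * W) ≤ n := by
    by_contra hlt
    push Not at hlt
    have h4 : n * n < (20 * (s * W)) * (20 * (s * W)) := Nat.mul_lt_mul'' hlt hlt
    have h5 : (20 * (s * W)) * (20 * (s * W)) = 400 * (W * W) * (s * s) := by ring
    have h6 : 400 * (W * W) * (s * s) ≤ 400 * (W * W) * (16 * n) := Nat.mul_le_mul_left _ hs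
    have h7 : 400 * (W * W) * (16 * n) = 6400 * (W * W) * n := by ring
    have h8 : 6400 * (W * W) * n ≤ n * n := Nat.mul_le_mul_right _ h2
    omega
  have h4 : 10 * ((s + E + 2) * W) = 10 * (s * W) + 10 * ((E + 2) * W) := by ring
  omega

theorem main (hALG : S_ALG) (hIDX : S_IDX) (hCHAIN : S_CHAIN) (hSTD : S_STD) (hHALF : S_HALF)
    (hDEEP : S_DEEP) (hDEEPC : S_DEEPC) (hWIN : S_WIN) (hGAD : S_GAD) (hESC : S_ESC)
    (hUNI : S_UNI) (hSPL : S_SPL) (hROT : S_ROT) (hSEL : S_SEL) (hPULL : S_PULL) (hCJ : S_CJ)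
    (hINV2 : S_INV2) (hNUM : S_NUM) (δ : ℝ) (hδ : 0 < δ) (hδ1 : δ < 1) :
    ∃ C : ℝ, 0 < C ∧ ∃ K : ℕ, ∀ᶠ n : ℕ in atTop, ∀ x y : alternatingGroup (Fin n),
      K * (cyc (x : Perm (Fin n)) * cyc (x : Perm (Fin n))) ≤ n →
      K * (cyc (y : Perm (Fin n)) * cyc (y : Perm (Fin n))) ≤ n →
      (n.factorial : ℝ) ^ (1 - δ) ≤
        (Nat.card {g : Perm (Fin n) // KazC C x (MulAut.conjNormal g y)} : ℝ) := by
  obtain ⟨m, E, hm, hE, hE2, hnum⟩ := hNUM δ hδ hδ1
  have hE1 : 1 ≤ E := le_trans (by norm_num) hE2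
  obtain ⟨C₀, hC₀, hkaz⟩ := kaz_all
  obtain ⟨C, hC, hdet⟩ := det hALG hIDX hCHAIN hSTD hHALF hDEEP hDEEPC hWIN hGAD hESC hUNI m E C₀
    hm hE hE2 hC₀.le
  set R := winLen m E (2 * m * m) with hR
  have hR1 : 4 ≤ R := by
    rw [hR]
    unfold winLen
    calc 4 ≤ 2 * (2 * m + 1) * 1 := by omega
      _ ≤ _ := Nat.mul_le_mul_left _ (by omega)
  refine ⟨2 * C + 1, by linarith, 2 * R + 1, ?_⟩
  obtain ⟨W, hW⟩ : ∃ W, W = 2 * m * m + 2 * (2 * m + 1) := ⟨_, rfl⟩
  clear_value R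
  clear hE2
  filter_upwards [hnum, eventually_ge_atTop (40 + R + 20 * ((E + 2) * W) + 6400 * (W * W))]
    with n hn1 hn2 x y hx hy
  obtain ⟨b₁, p, q, ι₂, B, g₁, g₂, hSpr, hB, hι₂B, hSp, hι₂, hι₂pq, hBc, hg₁, hg₂⟩ :=
    setup hSPL hROT hGAD n (2 * R) x y (by omega) (by omega) hx hy
  have hroom : 10 * ((B.card + E + 2) * W) ≤ n := room hBc (by omega) (by omega)
  obtain ⟨N₀, c, hdvd, hSel, hnle⟩ := hSEL n m E B hE1
  obtain ⟨a', ha'⟩ := hdvd
  have hN₀ : N₀ = a' * E := by rw [ha', mul_comm]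
  have ha1 : 1 ≤ a' := by
    rcases Nat.eq_zero_or_pos a' with h | h
    · exfalso
      rw [h, Nat.mul_zero] at ha'
      rw [ha'] at hnle
      have h1 : (B.card + E + 2) * (2 * m + 1) ≤ (B.card + E + 2) * W :=
        Nat.mul_le_mul_left _ (by omega)
      have h2 : (2 * m + 1) * (0 + B.card + E + 1) ≤ (B.card + E + 2) * (2 * m + 1) := by
        rw [mul_comm]
        exact Nat.mul_le_mul_right _ (by omega)
      omega
    · exact h
  obtain ⟨φ, hφ⟩ := hSTD.2 n m N₀ c (by omega) hSel.1 hSel.2.1 (2 * a' * E) (by rw [hN₀]; ring)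
  obtain ⟨α, β, hαβ⟩ := hkaz (4 * a' + 2) (by omega)
  have hαβ' : KazC C₀ α β := hαβ
  obtain ⟨z, κ, hz, hκ, hfin⟩ := hdet n a' N₀ (2 * R) b₁ c φ p q ι₂ B α β ha1 hN₀
    (Perm.mem_alternatingGroup.1 α.2) (Perm.mem_alternatingGroup.1 β.2) hφ hSel hSpr le_rfl hB
    hι₂B hSp hι₂ hι₂pq (by rw [← hW]; exact hroom) (by omega) (by omega)
  -- the family of conjugators
  have hSepOff := hSTD.1 n (2 * a' * E) m N₀ c φ (by omega) hφ
  have hSep := hSepOff.1
  have hOff2 : Off φ m ι₂ := hSepOff.2 ι₂ (by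
    rintro r ⟨i, hi, hci⟩
    exact hι₂B r fun hrB => hSel.2.2.1 i hi r hrB hci.symm)
  obtain ⟨hgad1, -, -, -, -⟩ := hGAD n b₁ (2 * R) p q (by omega) hSpr
  set ext : (Fin (m - 9) → {f : Perm (Fin (2 * a' * E)) // f ^ E = 1}) → ℕ →
    Perm (Fin (2 * a' * E)) := fun F j => if h : j < m - 9 then (F ⟨j, h⟩).1 else 1 with hext
  have hextE : ∀ F j, ext F j ^ E = 1 := by
    intro F j
    simp only [hext]
    split_ifs with h
    · exact (F ⟨j, h⟩).2
    · exact one_pow E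
  have key : ∀ F : Fin (m - 9) → {f : Perm (Fin (2 * a' * E)) // f ^ E = 1},
      ∃ g : Perm (Fin n), KazC (2 * C + 1) x (MulAut.conjNormal g y) ∧
        ∃ τ₁ τ₂ : Perm (Fin (2 * a' * E)), g₁ * (g * (y : Perm (Fin n)) * g⁻¹) * g₁⁻¹ =
          finRotate n * ι₂ * layers φ m (rho z κ τ₁ τ₂ (ext F)) := by
    intro F
    obtain ⟨τ₂, τ₁, hτ₂, hτ₁, hprod⟩ := hINV2 (2 * a' * E)
      (((List.range (m - 9)).reverse.map (ext F)).prod)⁻¹
    have hm9 : m - 9 + 9 = m := by omega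
    have hone : ((List.range m).reverse.map (rho z κ τ₁ τ₂ (ext F))).prod = 1 := by
      have h1 := rev_prod z κ τ₁ τ₂ (ext F) (m - 9)
      rw [hm9, hz, mul_one, ← hprod, mul_inv_cancel] at h1
      exact h1
    obtain ⟨h, hh⟩ := hCJ n (2 * a' * E) m φ ι₂ (rho z κ τ₁ τ₂ (ext F)) (by omega) hSep hOff2 hone
    have hconj : g₁ * ((g₁⁻¹ * (h * g₂)) * (y : Perm (Fin n)) * (g₁⁻¹ * (h * g₂))⁻¹) * g₁⁻¹ =
        finRotate n * ι₂ * layers φ m (rho z κ τ₁ τ₂ (ext F)) := by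
      rw [← hh, ← hg₂]
      group
    refine ⟨g₁⁻¹ * (h * g₂), ?_, τ₁, τ₂, hconj⟩
    set g := g₁⁻¹ * (h * g₂) with hg
    have hK : KazC (2 * C + 1) (MulAut.conjNormal g₁ x)
        (MulAut.conjNormal g₁ (MulAut.conjNormal g y)) := by
      intro V _ _ _ ρ hρ v k
      have hL := len_isLen ρ hρ v
      have h1 := hfin τ₁ τ₂ (ext F) hτ₁ hτ₂ (hextE F) (len ρ v) hL
        (hPULL n (4 * a' + 2) C₀ α β hC₀.le hαβ' V ρ hρ v) (k : Perm (Fin n))
        (Perm.mem_alternatingGroup.1 k.2)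
      have hX : ((MulAut.conjNormal g₁ x : alternatingGroup (Fin n)) : Perm (Fin n)) =
          finRotate n * gad p q := by
        rw [MulAut.conjNormal_apply, hg₁]
      have hY : ((MulAut.conjNormal g₁ (MulAut.conjNormal g y) : alternatingGroup (Fin n)) :
          Perm (Fin n)) = finRotate n * ι₂ * layers φ m (rho z κ τ₁ τ₂ (ext F)) := by
        rw [MulAut.conjNormal_apply, MulAut.conjNormal_apply, hconj]
      have hu : gad p q * ι₂ * layers φ m (rho z κ τ₁ τ₂ (ext F)) = (finRotate n * gad p q)⁻¹ *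
          (finRotate n * ι₂ * layers φ m (rho z κ τ₁ τ₂ (ext F))) := by
        have h2 : (gad p q)⁻¹ = gad p q := inv_eq_of_mul_eq_one_left hgad1
        rw [mul_inv_rev, h2]
        group
      rw [hu] at h1
      have h3 := hL.mul (finRotate n * gad p q)⁻¹
        (finRotate n * ι₂ * layers φ m (rho z κ τ₁ τ₂ (ext F)))
      rw [hL.inv] at h3
      rw [← len_coe ρ v k, ← len_coe ρ v, ← len_coe ρ v (MulAut.conjNormal g₁ _), hX, hY]
      have h4 := hL.nonneg (finRotate n * gad p q)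
      have h5 := hL.nonneg (finRotate n * ι₂ * layers φ m (rho z κ τ₁ τ₂ (ext F)))
      refine h1.trans ?_
      refine (mul_le_mul_of_nonneg_left (add_le_add_right h3 _) hC).trans ?_
      have h6 : 0 ≤ C * len ρ v (finRotate n * ι₂ * layers φ m (rho z κ τ₁ τ₂ (ext F))) :=
        mul_nonneg hC h5
      nlinarith [h4, h5, h6]
    have h1 := hK.conj g₁⁻¹
    have h2 : ∀ w : alternatingGroup (Fin n),
        MulAut.conjNormal g₁⁻¹ (MulAut.conjNormal g₁ w) = w := by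
      intro w
      rw [← MulAut.mul_apply, ← map_mul, inv_mul_cancel, map_one, MulAut.one_apply]
    rw [h2, h2] at h1
    exact h1
  choose Gf hG1 hG2 using key
  have hinj : Function.Injective fun F => (⟨Gf F, hG1 F⟩ :
      {g : Perm (Fin n) // KazC (2 * C + 1) x (MulAut.conjNormal g y)}) := by
    intro F F' hFF
    have h1 : Gf F = Gf F' := congrArg Subtype.val hFF
    obtain ⟨τ₁, τ₂, h2⟩ := hG2 F
    obtain ⟨τ₁', τ₂', h3⟩ := hG2 F'
    rw [h1, h3] at h2
    refine funext fun j => Subtype.ext ?_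
    have h5 := layers_inj φ hSep _ _ (mul_left_cancel h2) (j := j.val + 9) (by omega)
    have h6 : ∀ (τ τ' : Perm (Fin (2 * a' * E))) (f : ℕ → Perm (Fin (2 * a' * E))) (i : ℕ),
        rho z κ τ τ' f (i + 9) = f i := fun _ _ _ _ => rfl
    rw [h6, h6] at h5
    simp only [hext, j.2, dite_true] at h5
    exact h5.symm
  have hcard := Nat.card_le_card_of_injective _ hinj
  rw [Nat.card_fun, Nat.card_fin] at hcard
  have hnum1 := hn1 (2 * a' * E) N₀ B.card (by rw [hN₀]; ring) hBc (sel_le hSel) hnle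
  refine hnum1.trans ?_
  exact_mod_cast hcard

end Pool.Agent.Helper6.CX
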