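import Pool.Agent.Helper6.CX.Fin

/-! Counting: few elements have many cycles; double counting over the conjugators. -/

namespace Pool.Agent.Helper6.CX

open Equiv Filter Topology

theorem bad_count (K n : ℕ) :
    Nat.card {x : alternatingGroup (Fin n) //
      ¬ K * (cyc (x : Perm (Fin n)) * cyc (x : Perm (Fin n))) ≤ n} * 2 ^ Nat.sqrt (n / K) ≤
      (n + 1) * n.factorial := by
  refine le_trans (Nat.mul_le_mul_right _ ?_) (Pool.Agent.Helper70.CX.thm n (Nat.sqrt (n / K)))
  refine Nat.card_le_card_of_injective (fun x => ⟨x.1.1, ?_⟩) ?_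
  · by_contra hlt
    push Not at hlt
    apply x.2
    have h1 : cyc (x.1.1 : Perm (Fin n)) * cyc (x.1.1 : Perm (Fin n)) ≤
        Nat.sqrt (n / K) * Nat.sqrt (n / K) := Nat.mul_le_mul hlt.le hlt.le
    have h2 := Nat.sqrt_le (n / K)
    calc K * (cyc (x.1.1 : Perm (Fin n)) * cyc (x.1.1 : Perm (Fin n))) ≤ K * (n / K) :=
          Nat.mul_le_mul_left _ (h1.trans h2)
      _ ≤ n := Nat.mul_div_le n K
  · intro x y hxy
    have h1 := congrArg Subtype.val hxy
    exact Subtype.ext (Subtype.ext h1)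

/-- pairs with few cycles -/
def Good (K n : ℕ) (p : alternatingGroup (Fin n) × alternatingGroup (Fin n)) : Prop :=
  K * (cyc (p.1 : Perm (Fin n)) * cyc (p.1 : Perm (Fin n))) ≤ n ∧
    K * (cyc (p.2 : Perm (Fin n)) * cyc (p.2 : Perm (Fin n))) ≤ n

theorem card_An {n : ℕ} (hn : 2 ≤ n) : 2 * Nat.card (alternatingGroup (Fin n)) = n.factorial := by
  have : Nontrivial (Fin n) := Fin.nontrivial_iff_two_le.2 hn
  rw [Nat.card_eq_fintype_card, two_mul_card_alternatingGroup, Fintype.card_perm, Fintype.card_fin]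

theorem good_count (K n : ℕ) (hn : 2 ≤ n) :
    (Nat.card (alternatingGroup (Fin n)) * Nat.card (alternatingGroup (Fin n))) *
      2 ^ Nat.sqrt (n / K) ≤
    Nat.card {p // Good K n p} * 2 ^ Nat.sqrt (n / K) +
      4 * (n + 1) * (Nat.card (alternatingGroup (Fin n)) * Nat.card (alternatingGroup (Fin n))) := by
  classical
  set a := Nat.card (alternatingGroup (Fin n)) with ha
  set b := Nat.card {x : alternatingGroup (Fin n) //
      ¬ K * (cyc (x : Perm (Fin n)) * cyc (x : Perm (Fin n))) ≤ n} with hb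
  have h1 := bad_count K n
  rw [← card_An hn, ← hb, ← ha] at h1
  have h2 : a * a ≤ Nat.card {p // Good K n p} + (b * a + a * b) := by
    have h3 : Nat.card (alternatingGroup (Fin n) × alternatingGroup (Fin n)) = a * a := by
      rw [Nat.card_prod]
    rw [← h3]
    have h4 : Nat.card {p // Good K n p} + (b * a + a * b) =
        Nat.card ({p // Good K n p} ⊕ (({x : alternatingGroup (Fin n) //
          ¬ K * (cyc (x : Perm (Fin n)) * cyc (x : Perm (Fin n))) ≤ n} ×
            alternatingGroup (Fin n)) ⊕ (alternatingGroup (Fin n) ×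
            {x : alternatingGroup (Fin n) //
          ¬ K * (cyc (x : Perm (Fin n)) * cyc (x : Perm (Fin n))) ≤ n}))) := by
      rw [Nat.card_sum, Nat.card_sum, Nat.card_prod, Nat.card_prod]
    rw [h4]
    refine Nat.card_le_card_of_injective (fun p => if h1 : K * (cyc (p.1 : Perm (Fin n)) *
      cyc (p.1 : Perm (Fin n))) ≤ n then (if h2 : K * (cyc (p.2 : Perm (Fin n)) *
      cyc (p.2 : Perm (Fin n))) ≤ n then Sum.inl ⟨p, h1, h2⟩ else Sum.inr (Sum.inr (p.1, ⟨p.2, h2⟩)))
      else Sum.inr (Sum.inl (⟨p.1, h1⟩, p.2))) ?_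
    intro p p' hpp
    dsimp only at hpp
    split_ifs at hpp with h1 h2 h3 h4 h5 h6 h7 h8
    · have := congrArg Subtype.val (Sum.inl.inj hpp)
      exact this
    all_goals first
      | (simp only [Sum.inr.injEq, Sum.inl.injEq, Prod.mk.injEq, Subtype.mk.injEq] at hpp
         exact Prod.ext hpp.1 hpp.2)
      | exact absurd hpp (by simp)
  have h3 : a * a * 2 ^ Nat.sqrt (n / K) ≤
      (Nat.card {p // Good K n p} + (b * a + a * b)) * 2 ^ Nat.sqrt (n / K) :=
    Nat.mul_le_mul_right _ h2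
  have h4 : (b * a + a * b) * 2 ^ Nat.sqrt (n / K) = 2 * a * (b * 2 ^ Nat.sqrt (n / K)) := by ring
  have h5 : 2 * a * (b * 2 ^ Nat.sqrt (n / K)) ≤ 2 * a * ((n + 1) * (2 * a)) :=
    Nat.mul_le_mul_left _ h1
  calc a * a * 2 ^ Nat.sqrt (n / K) ≤ _ := h3
    _ = Nat.card {p // Good K n p} * 2 ^ Nat.sqrt (n / K) +
      (b * a + a * b) * 2 ^ Nat.sqrt (n / K) := by ring
    _ ≤ Nat.card {p // Good K n p} * 2 ^ Nat.sqrt (n / K) + 2 * a * ((n + 1) * (2 * a)) := by
      rw [h4]; exact Nat.add_le_add_left h5 _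
    _ = _ := by ring

theorem sqrt_div_tendsto (K : ℕ) (hK : 1 ≤ K) :
    Tendsto (fun n : ℕ => Nat.sqrt (n / K)) atTop atTop := by
  refine tendsto_atTop.2 fun b => ?_
  filter_upwards [eventually_ge_atTop (b * b * K)] with n hn
  rw [Nat.le_sqrt, Nat.le_div_iff_mul_le hK]
  exact hn

theorem tail_tendsto (K : ℕ) (hK : 1 ≤ K) :
    Tendsto (fun n : ℕ => (4 * (n + 1) : ℝ) / 2 ^ Nat.sqrt (n / K)) atTop (𝓝 0) := by
  have h1 : Tendsto (fun i : ℕ => (8 * K : ℝ) * ((i : ℝ) ^ 2 / 2 ^ i)) atTop (𝓝 0) := by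
    have := (tendsto_pow_const_div_const_pow_of_one_lt 2 (r := (2 : ℝ)) (by norm_num)).const_mul
      (8 * K : ℝ)
    rw [mul_zero] at this
    exact this
  have h2 := h1.comp ((tendsto_add_atTop_nat 1).comp (sqrt_div_tendsto K hK))
  refine squeeze_zero (fun n => by positivity) (fun n => ?_) h2
  simp only [Function.comp_apply]
  set j := Nat.sqrt (n / K) with hj
  have h3 : n / K < (j + 1) * (j + 1) := Nat.lt_succ_sqrt (n / K)
  have h4 : n + 1 ≤ K * ((j + 1) * (j + 1)) := by
    have h5 : n < K * (n / K + 1) := Nat.lt_mul_div_succ n (by omega)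
    have h6 : K * (n / K + 1) ≤ K * ((j + 1) * (j + 1)) := Nat.mul_le_mul_left _ h3
    omega
  have h5 : ((n : ℝ) + 1) ≤ K * ((j + 1) * (j + 1)) := by exact_mod_cast h4
  rw [div_le_iff₀ (by positivity)]
  have h6 : (8 * K : ℝ) * ((((j + 1 : ℕ) : ℝ)) ^ 2 / 2 ^ (j + 1)) * 2 ^ j =
      4 * (K * ((j + 1) * (j + 1))) := by
    rw [pow_succ]
    push_cast
    field_simp
    ring
  rw [h6]
  linarith

/-- almost all pairs have few cycles -/
theorem good_tendsto (K : ℕ) (hK : 1 ≤ K) :
    Tendsto (fun n : ℕ => (Nat.card {p // Good K n p} : ℝ) /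
      Nat.card (alternatingGroup (Fin n) × alternatingGroup (Fin n))) atTop (𝓝 1) := by
  have h0 := (tail_tendsto K hK).const_sub 1
  rw [sub_zero] at h0
  refine tendsto_of_tendsto_of_tendsto_of_le_of_le' h0 tendsto_const_nhds ?_ ?_
  · filter_upwards [eventually_ge_atTop 2] with n hn
    have h1 := good_count K n hn
    have h2 : (0 : ℝ) < Nat.card (alternatingGroup (Fin n)) := by
      exact_mod_cast Nat.card_pos
    rw [Nat.card_prod, le_div_iff₀ (by push_cast; positivity)]
    have h3 : ((Nat.card (alternatingGroup (Fin n)) : ℝ) * Nat.card (alternatingGroup (Fin n))) *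
        2 ^ Nat.sqrt (n / K) ≤ Nat.card {p // Good K n p} * 2 ^ Nat.sqrt (n / K) +
        4 * (n + 1) * ((Nat.card (alternatingGroup (Fin n)) : ℝ) *
          Nat.card (alternatingGroup (Fin n))) := by exact_mod_cast h1
    have h4 : (0 : ℝ) < 2 ^ Nat.sqrt (n / K) := by positivity
    push_cast
    refine le_of_mul_le_mul_right ?_ h4
    have h5 : (1 - 4 * ((n : ℝ) + 1) / 2 ^ Nat.sqrt (n / K)) *
        ((Nat.card (alternatingGroup (Fin n)) : ℝ) * Nat.card (alternatingGroup (Fin n))) *
        2 ^ Nat.sqrt (n / K) = ((Nat.card (alternatingGroup (Fin n)) : ℝ) *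
          Nat.card (alternatingGroup (Fin n))) * 2 ^ Nat.sqrt (n / K) - 4 * (n + 1) *
          ((Nat.card (alternatingGroup (Fin n)) : ℝ) * Nat.card (alternatingGroup (Fin n))) := by
      field_simp
    rw [h5]
    linarith
  · refine Eventually.of_forall fun n => ?_
    refine div_le_one_of_le₀ ?_ (Nat.cast_nonneg _)
    exact_mod_cast Nat.card_le_card_of_injective
      (Subtype.val : {p // Good K n p} → alternatingGroup (Fin n) × alternatingGroup (Fin n))
      Subtype.val_injective

/-- double counting over the conjugators -/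
theorem double {n : ℕ} (P : alternatingGroup (Fin n) → alternatingGroup (Fin n) → Prop) :
    ∑ p : alternatingGroup (Fin n) × alternatingGroup (Fin n),
      Nat.card {g : Perm (Fin n) // P p.1 (MulAut.conjNormal g p.2)} =
    n.factorial * Nat.card {p : alternatingGroup (Fin n) × alternatingGroup (Fin n) //
      P p.1 p.2} := by
  classical
  have h1 : ∀ p : alternatingGroup (Fin n) × alternatingGroup (Fin n),
      Nat.card {g : Perm (Fin n) // P p.1 (MulAut.conjNormal g p.2)} =
      ∑ g : Perm (Fin n), if P p.1 (MulAut.conjNormal g p.2) then 1 else 0 := by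
    intro p
    rw [Nat.card_eq_fintype_card, Fintype.card_subtype, Finset.card_filter]
  simp_rw [h1]
  rw [Finset.sum_comm]
  have h2 : ∀ g : Perm (Fin n), (∑ p : alternatingGroup (Fin n) × alternatingGroup (Fin n),
      if P p.1 (MulAut.conjNormal g p.2) then 1 else 0) =
      Nat.card {p : alternatingGroup (Fin n) × alternatingGroup (Fin n) // P p.1 p.2} := by
    intro g
    rw [Nat.card_eq_fintype_card, Fintype.card_subtype, Finset.card_filter]
    exact Equiv.sum_comp ((Equiv.refl _).prodCongr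
      (MulAut.conjNormal g : MulAut (alternatingGroup (Fin n))).toEquiv)
      (fun p => if P p.1 p.2 then 1 else 0)
  simp_rw [h2]
  rw [Finset.sum_const, Finset.card_univ, Fintype.card_perm, Fintype.card_fin, smul_eq_mul]

/-- from the conjugators to the pairs -/
theorem pairs_count (P : ∀ n, alternatingGroup (Fin n) → alternatingGroup (Fin n) → Prop)
    (K : ℕ) (hK : 1 ≤ K) (δ : ℝ) (hδ : 0 < δ)
    (h : ∀ᶠ n : ℕ in atTop, ∀ p, Good K n p → (n.factorial : ℝ) ^ (1 - δ / 2) ≤
      (Nat.card {g : Perm (Fin n) // P n p.1 (MulAut.conjNormal g p.2)} : ℝ)) :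
    ∀ᶠ n : ℕ in atTop, (Nat.card (alternatingGroup (Fin n)) : ℝ) ^ (2 - δ) ≤
      Nat.card {p : alternatingGroup (Fin n) × alternatingGroup (Fin n) // P n p.1 p.2} := by
  classical
  have hfac : Tendsto (fun n : ℕ => (n.factorial : ℝ)) atTop atTop :=
    tendsto_natCast_atTop_atTop.comp (tendsto_atTop_mono Nat.self_le_factorial tendsto_id)
  have hA : Tendsto (fun n : ℕ => (Nat.card (alternatingGroup (Fin n)) : ℝ)) atTop atTop := by
    refine (hfac.atTop_div_const (by norm_num : (0 : ℝ) < 2)).congr' ?_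
    filter_upwards [eventually_ge_atTop 2] with n hn
    have h1 := card_An hn
    rw [← h1]
    push_cast
    ring
  have h2 := ((tendsto_rpow_atTop (half_pos hδ)).comp hA).eventually_ge_atTop
    (2 * (2 : ℝ) ^ (δ / 2))
  have h3 := (good_tendsto K hK).eventually (lt_mem_nhds (show (1 / 2 : ℝ) < 1 by norm_num))
  filter_upwards [h, h2, h3, eventually_ge_atTop 2] with n hn1 hn2 hn3 hn4
  set a : ℝ := (Nat.card (alternatingGroup (Fin n)) : ℝ) with ha
  have ha0 : 0 < a := by
    rw [ha]
    exact_mod_cast Nat.card_pos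
  have hT : (n.factorial : ℝ) = 2 * a := by
    rw [ha, ← card_An hn4]
    push_cast
    ring
  have hgood : a * a / 2 ≤ Nat.card {p // Good K n p} := by
    rw [Nat.card_prod] at hn3
    push_cast at hn3
    rw [lt_div_iff₀ (by positivity)] at hn3
    linarith
  have hsum := double (P n)
  have h4 : (Nat.card {p // Good K n p} : ℝ) * (n.factorial : ℝ) ^ (1 - δ / 2) ≤
      n.factorial * Nat.card {p : alternatingGroup (Fin n) × alternatingGroup (Fin n) //
        P n p.1 p.2} := by
    have h5 : (n.factorial : ℝ) * Nat.card {p : alternatingGroup (Fin n) ×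
        alternatingGroup (Fin n) // P n p.1 p.2} =
        ∑ p : alternatingGroup (Fin n) × alternatingGroup (Fin n),
      (Nat.card {g : Perm (Fin n) // P n p.1 (MulAut.conjNormal g p.2)} : ℝ) := by
      exact_mod_cast hsum.symm
    rw [h5]
    calc (Nat.card {p // Good K n p} : ℝ) * (n.factorial : ℝ) ^ (1 - δ / 2)
        = ∑ _p ∈ Finset.univ.filter (Good K n), (n.factorial : ℝ) ^ (1 - δ / 2) := by
          rw [Finset.sum_const, nsmul_eq_mul, Nat.card_eq_fintype_card, Fintype.card_subtype]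
      _ ≤ ∑ p ∈ Finset.univ.filter (Good K n),
          (Nat.card {g : Perm (Fin n) // P n p.1 (MulAut.conjNormal g p.2)} : ℝ) :=
          Finset.sum_le_sum fun p hp => hn1 p (Finset.mem_filter.1 hp).2
      _ ≤ _ := Finset.sum_le_sum_of_subset_of_nonneg (Finset.filter_subset _ _)
          fun _ _ _ => Nat.cast_nonneg _
  have h5 : (n.factorial : ℝ) ^ (1 - δ / 2) = n.factorial * (2 * a) ^ (-(δ / 2)) := by
    rw [sub_eq_add_neg, Real.rpow_add (by rw [hT]; positivity), Real.rpow_one, hT]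
  have hT0 : (0 : ℝ) < n.factorial := by rw [hT]; positivity
  have h6 : a * a / 2 * (2 * a) ^ (-(δ / 2)) ≤
      Nat.card {p : alternatingGroup (Fin n) × alternatingGroup (Fin n) // P n p.1 p.2} := by
    rw [h5] at h4
    have h7 : (n.factorial : ℝ) * ((Nat.card {p // Good K n p} : ℝ) * (2 * a) ^ (-(δ / 2))) ≤
        n.factorial * Nat.card {p : alternatingGroup (Fin n) × alternatingGroup (Fin n) //
        P n p.1 p.2} := by linarith
    have h8 := le_of_mul_le_mul_left h7 hT0
    refine le_trans ?_ h8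
    gcongr
  refine le_trans ?_ h6
  simp only [Function.comp_apply] at hn2
  have h7 : a ^ (2 - δ) = a * a * (a ^ (-(δ / 2)) * a ^ (-(δ / 2))) := by
    rw [← Real.rpow_add ha0]
    have h8 : a * a = a ^ (2 : ℝ) := by
      rw [Real.rpow_two, sq]
    rw [h8, ← Real.rpow_add ha0]
    congr 1
    ring
  rw [h7, Real.mul_rpow (by norm_num) ha0.le]
  have h9 : a ^ (-(δ / 2)) ≤ 1 / 2 * 2 ^ (-(δ / 2)) := by
    rw [Real.rpow_neg ha0.le, Real.rpow_neg (by norm_num)]
    have h10 : (0 : ℝ) < 2 * 2 ^ (δ / 2) := by positivity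
    have h11 := inv_anti₀ h10 hn2
    refine h11.trans (le_of_eq ?_)
    rw [mul_inv]
    norm_num
  have h10 : 0 ≤ a ^ (-(δ / 2)) := by positivity
  calc a * a * (a ^ (-(δ / 2)) * a ^ (-(δ / 2)))
      ≤ a * a * (1 / 2 * 2 ^ (-(δ / 2)) * a ^ (-(δ / 2))) := by gcongr
    _ = a * a / 2 * (2 ^ (-(δ / 2)) * a ^ (-(δ / 2))) := by ring

end Pool.Agent.Helper6.CX
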